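import Pool.Agent.S7d.Z1

/-! S7 (MP_13664e_an), THEOREM D in the form of the interface. -/

set_option autoImplicit false

namespace Pool.Agent.S7

open MeasureTheory Filter Topology
open scoped ENNReal

variable {K : Type*} [CommGroup K] [TopologicalSpace K] [IsTopologicalGroup K] [CompactSpace K]
  [T2Space K] [SecondCountableTopology K] [MeasurableSpace K] [BorelSpace K]
  {u : K} {m : Measure K} [IsProbabilityMeasure m] [m.IsHaarMeasure]
  {Z : Type*} [MeasurableSpace Z] [StandardBorelSpace Z] {M : Measure Z} {S : Z ≃ᵐ Z}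
  {y : Z → K} {s l : Z → ℝ}

/-- **THEOREM D**: two-point correlations are small at one of the scales `J - log q` -/
theorem thmD (hK : KD K u) (hD : DS u m M S y s l) {α β : ℝ} (hαβ : α < β) (k : ℕ)
    (e : Fin k → ℕ) (he : ∀ i, 1 ≤ e i) (φ : Fin k → K → ℂ) (hφ : ∀ i, BMf (φ i)) {δ : ℝ}
    (hδ : 0 < δ) :
    ∃ q : ℕ, q.Prime ∧ ∀ i,
      ‖∫ z in s ⁻¹' Set.Ioc (α - Real.log q) (β - Real.log q),
        (l z : ℂ) * (l (S^[e i] z) : ℂ) * φ i (y z) ∂M‖ < δ :=
  Pool.Agent.S7d.thmD' hK hD hαβ k e he φ hφ hδ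

end Pool.Agent.S7
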