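import Mathlib
import Pool.Agent.Sar.Defs
import Pool.Agent.S7.Kbr

/-!
# S7, block D (two-point correlations): common definitions
-/

set_option autoImplicit false

namespace Pool.Agent.S7d

open MeasureTheory Filter Topology
open scoped ENNReal
open Pool.Agent.Sar (blk pib)
open Pool.Agent.S7 (KD DS Kq rt BMf)

/-- squarefree with all prime factors `≥ q0` -/
def OKn (q0 n : ℕ) : Prop := Squarefree n ∧ ∀ p : ℕ, p.Prime → p ∣ n → q0 ≤ p

/-- sparse sets of scales -/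
def Spa (B : Set ℕ) : Prop :=
  ∃ C : ℝ, ∀ F : Finset ℕ, (∀ m ∈ F, 1 ≤ m ∧ m ∈ B) → ∑ m ∈ F, (1 : ℝ) / m ≤ C

section K

variable {K : Type*} [CommGroup K] [TopologicalSpace K]

open Classical in
/-- residue modulo `n`: `y = u^j x^n`, `j < n` -/
noncomputable def res (u : K) (n : ℕ) (y : K) : ZMod n :=
  if h : ∃ j : ℕ, j < n ∧ ∃ x : K, y = u ^ j * x ^ n then (h.choose : ZMod n) else 0

/-- annihilator of a group of characters -/
def Ann (Λ : Subgroup (PontryaginDual K)) : Set K := {h | ∀ ψ ∈ Λ, ψ h = 1}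

/-- the `σ`-algebra of the measurable sets which are invariant under the annihilator -/
def AK [MeasurableSpace K] (Λ : Subgroup (PontryaginDual K)) : MeasurableSpace K where
  MeasurableSet' B := MeasurableSet B ∧ ∀ h ∈ Ann Λ, ∀ x, h * x ∈ B ↔ x ∈ B
  measurableSet_empty := ⟨MeasurableSet.empty, fun _ _ _ => Iff.rfl⟩
  measurableSet_compl B hB := ⟨hB.1.compl, fun h hh x => not_congr (hB.2 h hh x)⟩
  measurableSet_iUnion f hf := ⟨MeasurableSet.iUnion fun i => (hf i).1, fun h hh x => by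
    simp only [Set.mem_iUnion, (hf _).2 h hh x]⟩

/-- choice of the roots: `ψ_q ^ q = χ`, no torsion of the relevant orders in the group they
generate, and the dichotomy torsion / non-torsion -/
structure Choice (χ : PontryaginDual K) (q0 : ℕ) (ψ : ℕ → PontryaginDual K) : Prop where
  two : 2 ≤ q0
  pow : ∀ q, q.Prime → q0 ≤ q → ψ q ^ q = χ
  tf : ∀ n, OKn q0 n → ∀ θ ∈ Subgroup.closure (Set.range ψ), θ ^ n = 1 → θ = 1
  dich : (Set.range ψ).Finite ∨
    ∀ q q' h : ℕ, 1 ≤ h → q.Prime → q'.Prime → (q + h).Prime → (q' + h).Prime → q0 ≤ q →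
      q0 ≤ q' → (ψ q)⁻¹ * ψ (q + h) = (ψ q')⁻¹ * ψ (q' + h) → q = q'

end K

/-- the correlation `∫_{s ∈ (α, β]} ψ(y z) l(z) l(S^n z) dM` -/
noncomputable def cor {K Z : Type*} [MeasurableSpace Z] (M : Measure Z) (S : Z ≃ᵐ Z) (y : Z → K)
    (s l : Z → ℝ) (α β : ℝ) (ψ : K → ℂ) (n : ℕ) : ℂ :=
  ∫ z in s ⁻¹' Set.Ioc α β, ψ (y z) * ((l z * l (S^[n] z) : ℝ) : ℂ) ∂M

end Pool.Agent.S7d
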