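import Pool.Agent.S7d.Defs

set_option autoImplicit false

namespace Pool.Agent.S7d

open MeasureTheory Filter Topology
open Pool.Agent.S7 (KD Kq rt)

variable {K : Type*} [CommGroup K] [TopologicalSpace K] [IsTopologicalGroup K] [CompactSpace K]
  [T2Space K] [SecondCountableTopology K] [MeasurableSpace K] [BorelSpace K]
  {u : K} {m : Measure K} [IsProbabilityMeasure m] [m.IsHaarMeasure]

/- BEGIN g1: residues.  Use `S7.coset`, `S7.upow_mem`, `S7.Kq_open` (hypothesis `hK`; a Haar measure is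
needed only through these: use `m := haar` when you have to). -/

omit [IsTopologicalGroup K] [CompactSpace K] [T2Space K] [SecondCountableTopology K]
  [MeasurableSpace K] [BorelSpace K] in
private theorem g1_pow (θ : PontryaginDual K) (n : ℕ) (x : K) : (θ ^ n) x = (θ x) ^ n := by
  induction n with
  | zero => rw [pow_zero, pow_zero]; rfl
  | succ n ih =>
    rw [pow_succ, pow_succ, ← ih]
    rfl

omit [TopologicalSpace K] [IsTopologicalGroup K] [CompactSpace K] [T2Space K]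
  [SecondCountableTopology K] [MeasurableSpace K] [BorelSpace K] in
private theorem g1_mod (j n : ℕ) (x : K) : u ^ j * x ^ n = u ^ (j % n) * (u ^ (j / n) * x) ^ n := by
  rw [mul_pow, ← pow_mul, ← mul_assoc, ← pow_add]
  congr 2
  rw [mul_comm (j / n) n]
  exact (Nat.mod_add_div j n).symm

/-- `y = u^j x^n` is unique: `u^j x^n = u^i x'^n`, `i, j < n` implies `i = j` (`S7.coset`) -/
theorem res_spec (hK : KD K u) {n : ℕ} (hn : 1 ≤ n) (j : ℕ) (x : K) :
    res u n (u ^ j * x ^ n) = (j : ZMod n) := by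
  classical
  have hlt : j % n < n := Nat.mod_lt _ (by omega)
  have h : ∃ i : ℕ, i < n ∧ ∃ z : K, u ^ j * x ^ n = u ^ i * z ^ n :=
    ⟨j % n, hlt, u ^ (j / n) * x, g1_mod j n x⟩
  have h1 : res u n (u ^ j * x ^ n) = (h.choose : ZMod n) := by
    unfold res
    rw [dif_pos h]
  obtain ⟨h2, h3⟩ := h.choose_spec
  have h4 := (S7.coset hK hn (u ^ j * x ^ n)).unique (y₁ := ⟨h.choose, h2⟩) (y₂ := ⟨j % n, hlt⟩)
    h3 ⟨u ^ (j / n) * x, g1_mod j n x⟩
  have h5 : h.choose = j % n := congrArg Fin.val h4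
  rw [h1, h5, ZMod.natCast_mod]

theorem exists_rep (hK : KD K u) {n : ℕ} (hn : 1 ≤ n) (y : K) :
    ∃ (j : ℕ) (x : K), j < n ∧ y = u ^ j * x ^ n := by
  obtain ⟨j, ⟨x, hx⟩, _⟩ := S7.coset hK hn y
  exact ⟨j, x, j.2, hx⟩

theorem res_mul (hK : KD K u) {n : ℕ} (hn : 1 ≤ n) (x y : K) :
    res u n (x * y) = res u n x + res u n y := by
  obtain ⟨i, a, -, rfl⟩ := exists_rep hK hn x
  obtain ⟨j, b, -, rfl⟩ := exists_rep hK hn y
  have h : u ^ i * a ^ n * (u ^ j * b ^ n) = u ^ (i + j) * (a * b) ^ n := by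
    rw [pow_add, mul_pow, mul_mul_mul_comm]
  rw [h, res_spec hK hn, res_spec hK hn, res_spec hK hn, Nat.cast_add]

theorem res_u (hK : KD K u) {n : ℕ} (hn : 1 ≤ n) : res u n u = 1 := by
  have h := res_spec hK hn 1 (1 : K)
  rwa [pow_one, one_pow, mul_one, Nat.cast_one] at h

theorem res_eq_zero (hK : KD K u) {n : ℕ} (hn : 1 ≤ n) (y : K) : res u n y = 0 ↔ y ∈ Kq K n := by
  constructor
  · intro h
    obtain ⟨j, x, hj, rfl⟩ := exists_rep hK hn y
    rw [res_spec hK hn, ZMod.natCast_eq_zero_iff] at h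
    have h1 : j = 0 := Nat.eq_zero_of_dvd_of_lt h hj
    subst h1
    exact ⟨x, by simp⟩
  · rintro ⟨x, rfl⟩
    have h := res_spec hK hn 0 x
    rwa [pow_zero, one_mul, Nat.cast_zero] at h

theorem res_compat (hK : KD K u) {n n' : ℕ} (hn : 1 ≤ n') (h : n ∣ n') (y : K) :
    ZMod.castHom h (ZMod n) (res u n' y) = res u n y := by
  obtain ⟨k, rfl⟩ := h
  have hn1 : 1 ≤ n := Nat.one_le_iff_ne_zero.2 fun h0 => by simp [h0] at hn
  obtain ⟨j, x, -, rfl⟩ := exists_rep hK hn y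
  have h1 : u ^ j * x ^ (n * k) = u ^ j * (x ^ k) ^ n := by rw [← pow_mul, mul_comm k n]
  rw [res_spec hK hn, map_natCast, h1, res_spec hK hn1]

private theorem g1_shift (hK : KD K u) {n : ℕ} (hn : 1 ≤ n) (k : ℕ) (y : K) :
    res u n y = (k : ZMod n) ↔ (u ^ k)⁻¹ * y ∈ Kq K n := by
  have h1 : res u n y = res u n (u ^ k) + res u n ((u ^ k)⁻¹ * y) := by
    rw [← res_mul hK hn, mul_inv_cancel_left]
  have h2 : res u n (u ^ k) = (k : ZMod n) := by
    have h := res_spec hK hn k (1 : K)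
    rwa [one_pow, mul_one] at h
  rw [← res_eq_zero hK hn, h1, h2]
  constructor
  · intro h
    exact left_eq_add.1 h.symm
  · intro h
    rw [h, add_zero]

theorem res_meas (hK : KD K u) {n : ℕ} (hn : 1 ≤ n) (r : ZMod n) :
    MeasurableSet (res u n ⁻¹' {r}) := by
  have : NeZero n := ⟨by omega⟩
  have h : (res u n ⁻¹' {r} : Set K) = (fun y => (u ^ r.val)⁻¹ * y) ⁻¹' (Kq K n) := by
    ext y
    have h1 := g1_shift hK hn r.val y
    rw [ZMod.natCast_zmod_val] at h1
    exact h1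
  rw [h]
  exact ((S7.Kq_open hK hn).1.preimage (continuous_const_mul _)).measurableSet

/-- the character of order `d` which sees the residue mod `d` (`KD.roots` with a primitive root of
unity; `θ ^ d = 1` by `KD.dense`); it is `1` on `d`-th powers -/
theorem exists_theta (hK : KD K u) {d : ℕ} (hd : 2 ≤ d) :
    ∃ θ : PontryaginDual K, θ ≠ 1 ∧ θ ^ d = 1 ∧ ∀ y, res u d y = 0 → θ y = 1 := by
  have : NeZero d := ⟨by omega⟩
  have : Fact (1 < d) := ⟨by omega⟩
  have hz : (ZMod.toCircle (1 : ZMod d)) ^ d = 1 := by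
    rw [← AddChar.map_nsmul_eq_pow, nsmul_one, ZMod.natCast_self, AddChar.map_zero_eq_one]
  have hz1 : ZMod.toCircle (1 : ZMod d) ≠ 1 := by
    intro h
    have h1 : ZMod.toCircle (1 : ZMod d) = ZMod.toCircle (0 : ZMod d) := by
      rw [h, AddChar.map_zero_eq_one]
    exact one_ne_zero (ZMod.injective_toCircle h1)
  obtain ⟨θ, hθ⟩ := hK.roots d (by omega) _ hz
  have hd1 : θ ^ d = 1 := by
    refine hK.dense _ ?_
    rw [g1_pow, hθ, hz]
  refine ⟨θ, ?_, hd1, ?_⟩
  · rintro rfl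
    exact hz1 hθ.symm
  · intro y hy
    obtain ⟨x, rfl⟩ := (res_eq_zero hK (by omega) y).1 hy
    show θ (x ^ d) = 1
    rw [map_pow, ← g1_pow, hd1]
    rfl

/- END g1 -/

end Pool.Agent.S7d
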