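import Pool.Agent.S7d.Defs

set_option autoImplicit false

namespace Pool.Agent.S7d

open MeasureTheory Filter Topology
open Pool.Agent.S7 (KD Kq rt)

variable {K : Type*} [CommGroup K] [TopologicalSpace K] [IsTopologicalGroup K] [CompactSpace K]
  [T2Space K] [SecondCountableTopology K] [MeasurableSpace K] [BorelSpace K]

/- BEGIN g2 -/

section g2_sw

variable {X : Type*} [TopologicalSpace X]

/-- the complex valued function of a circle valued function -/
private noncomputable def g2_tc (f : C(X, Circle)) : C(X, ℂ) :=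
  ⟨fun x => (f x : ℂ), by fun_prop⟩

private theorem g2_mul (f g : C(X, Circle)) : g2_tc (f * g) = g2_tc f * g2_tc g := by
  ext x
  simp [g2_tc]

private theorem g2_one : g2_tc (1 : C(X, Circle)) = 1 := by
  ext x
  simp [g2_tc]

private theorem g2_star (f : C(X, Circle)) : star (g2_tc f) = g2_tc f⁻¹ := by
  ext x
  show (starRingEnd ℂ) ((f x : Circle) : ℂ) = (((f x)⁻¹ : Circle) : ℂ)
  rw [Circle.coe_inv_eq_conj]

private theorem g2_span_mul (M : Set C(X, Circle)) (mul : ∀ f ∈ M, ∀ g ∈ M, f * g ∈ M)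
    {a b : C(X, ℂ)} (ha : a ∈ Submodule.span ℂ (g2_tc '' M))
    (hb : b ∈ Submodule.span ℂ (g2_tc '' M)) : a * b ∈ Submodule.span ℂ (g2_tc '' M) := by
  have h : Submodule.span ℂ (g2_tc '' M) * Submodule.span ℂ (g2_tc '' M) ≤
      Submodule.span ℂ (g2_tc '' M) := by
    rw [Submodule.span_mul_span, Submodule.span_le]
    rintro _ ⟨_, ⟨f, hf, rfl⟩, _, ⟨g, hg, rfl⟩, rfl⟩
    exact Submodule.subset_span ⟨f * g, mul f hf g hg, g2_mul f g⟩
  exact h (Submodule.mul_mem_mul ha hb)

private theorem g2_cont : Continuous fun z : Circle => (z : ℂ) := by fun_prop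

/-- Stone-Weierstrass for circle valued functions -/
private theorem g2_sw [CompactSpace X] (M : Set C(X, Circle)) (one : 1 ∈ M)
    (mul : ∀ f ∈ M, ∀ g ∈ M, f * g ∈ M)
    (inv : ∀ f ∈ M, f⁻¹ ∈ M) (sep : ∀ x y, (∀ f ∈ M, f x = f y) → x = y) (F : C(X, ℂ)) {ε : ℝ}
    (hε : 0 < ε) :
    ∃ (s : Finset C(X, Circle)) (c : C(X, Circle) → ℂ), (∀ f ∈ s, f ∈ M) ∧
      ∀ x, ‖F x - ∑ f ∈ s, c f * (f x : ℂ)‖ ≤ ε := by
  classical
  have hone : (1 : C(X, ℂ)) ∈ Submodule.span ℂ (g2_tc '' M) :=
    Submodule.subset_span ⟨1, one, g2_one⟩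
  let A : StarSubalgebra ℂ C(X, ℂ) :=
    { carrier := (Submodule.span ℂ (g2_tc '' M) : Set C(X, ℂ))
      mul_mem' := fun ha hb => g2_span_mul M mul ha hb
      one_mem' := hone
      add_mem' := fun ha hb => Submodule.add_mem _ ha hb
      zero_mem' := Submodule.zero_mem _
      algebraMap_mem' := fun r => by
        have h : algebraMap ℂ C(X, ℂ) r = r • 1 := by
          rw [Algebra.algebraMap_eq_smul_one]
        show algebraMap ℂ C(X, ℂ) r ∈ Submodule.span ℂ (g2_tc '' M)
        rw [h]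
        exact Submodule.smul_mem _ _ hone
      star_mem' := by
        intro a ha
        have ha' : a ∈ Submodule.span ℂ (g2_tc '' M) := ha
        show star a ∈ Submodule.span ℂ (g2_tc '' M)
        clear ha
        induction ha' using Submodule.span_induction with
        | mem z hz =>
          obtain ⟨f, hf, rfl⟩ := hz
          rw [g2_star]
          exact Submodule.subset_span ⟨f⁻¹, inv f hf, rfl⟩
        | zero => rw [star_zero]; exact Submodule.zero_mem _
        | add a b _ _ h1 h2 => rw [star_add]; exact Submodule.add_mem _ h1 h2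
        | smul r a _ h1 => rw [star_smul]; exact Submodule.smul_mem _ _ h1 }
  have hsep : A.SeparatesPoints := by
    intro x y hxy
    by_contra hne
    apply hxy
    refine sep x y fun f hf => ?_
    by_contra hfx
    apply hne
    refine ⟨fun z => g2_tc f z, ⟨g2_tc f, Submodule.subset_span ⟨f, hf, rfl⟩, rfl⟩, ?_⟩
    intro h
    exact hfx (Circle.coe_injective h)
  have htop := ContinuousMap.starSubalgebra_topologicalClosure_eq_top_of_separatesPoints A hsep
  have hF : F ∈ A.topologicalClosure := by rw [htop]; trivial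
  have hF' : F ∈ closure (A : Set C(X, ℂ)) := by
    rwa [← StarSubalgebra.topologicalClosure_coe]
  obtain ⟨h, hhA, hh⟩ := Metric.mem_closure_iff.1 hF' ε hε
  have hh2 : h ∈ Submodule.span ℂ (g2_tc '' M) := hhA
  rw [Finsupp.mem_span_image_iff_linearCombination] at hh2
  obtain ⟨l, hl, rfl⟩ := hh2
  refine ⟨l.support, l, fun f hf => ?_, fun x => ?_⟩
  · exact (Finsupp.mem_supported ℂ l).1 hl hf
  · have h1 : (Finsupp.linearCombination ℂ g2_tc l : C(X, ℂ)) x =
        ∑ f ∈ l.support, l f * (f x : ℂ) := by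
      rw [Finsupp.linearCombination_apply, Finsupp.sum, ContinuousMap.sum_apply]
      rfl
    rw [← h1, ← dist_eq_norm]
    exact (ContinuousMap.dist_apply_le_dist x).trans hh.le

end g2_sw

/-- **double annihilator**: a character which is trivial on `Λ^⊥` lies in `Λ`.
Proof: Stone - Weierstrass (`ContinuousMap.starSubalgebra_topologicalClosure_eq_top_of_separatesPoints`)
on the compact image of `K` in `Λ → Circle` (or on the quotient by the closed subgroup `Λ^⊥`):
`χ` factors through it, so `χ` is a uniform limit of linear combinations of members of `Λ`; if `χ ∉ Λ`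
all of these are orthogonal to `χ` in `L²(m)` (`S7.chr_int`), while `∫ |χ|² = 1`. -/
theorem double_annih (m : Measure K) [IsProbabilityMeasure m] [m.IsHaarMeasure]
    (Λ : Subgroup (PontryaginDual K)) (χ : PontryaginDual K)
    (h : ∀ y ∈ Ann Λ, χ y = 1) : χ ∈ Λ := by
  classical
  by_contra hχ
  let ev : K → (Λ → Circle) := fun y ψ => (ψ : PontryaginDual K) y
  have hev : Continuous ev := continuous_pi fun ψ => map_continuous (ψ : PontryaginDual K)
  have hcomp : CompactSpace (Set.range ev) := isCompact_iff_compactSpace.1 (isCompact_range hev)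
  let p : K → Set.range ev := Set.rangeFactorization ev
  have hp : Continuous p := hev.subtype_mk _
  have hsurj : Function.Surjective p := Set.rangeFactorization_surjective
  have hq : IsQuotientMap p := hp.isClosedMap.isQuotientMap hp hsurj
  have hfib : ∀ y y', p y = p y' → χ y = χ y' := by
    intro y y' hyy
    have h1 : ∀ ψ ∈ Λ, ψ y = ψ y' := fun ψ hψ =>
      congrFun (congrArg Subtype.val hyy) ⟨ψ, hψ⟩
    have h2 : y * y'⁻¹ ∈ Ann Λ := by
      intro ψ hψ
      rw [map_mul, map_inv, h1 ψ hψ, mul_inv_cancel]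
    have h3 := h _ h2
    rw [map_mul, map_inv, mul_inv_eq_one] at h3
    exact h3
  let g : Set.range ev → K := fun x => (hsurj x).choose
  have hg : ∀ x, p (g x) = x := fun x => (hsurj x).choose_spec
  have hFp : ∀ y, ((χ (g (p y)) : Circle) : ℂ) = ((χ y : Circle) : ℂ) := fun y => by
    rw [hfib _ _ (hg (p y))]
  let F : C(Set.range ev, ℂ) := ⟨fun x => ((χ (g x) : Circle) : ℂ), by
    rw [hq.continuous_iff]
    have h1 : (fun x => ((χ (g x) : Circle) : ℂ)) ∘ p = fun y => ((χ y : Circle) : ℂ) :=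
      funext hFp
    rw [h1]
    exact g2_cont.comp (map_continuous χ)⟩
  let E : Λ → C(Set.range ev, Circle) := fun ψ => ⟨fun x => x.1 ψ,
    (continuous_apply ψ).comp continuous_subtype_val⟩
  have hE : ∀ ψ y, E ψ (p y) = (ψ : PontryaginDual K) y := fun ψ y => rfl
  have hEmul : ∀ ψ φ : Λ, E ψ * E φ = E (ψ * φ) := by
    intro ψ φ
    ext1 x
    obtain ⟨y, rfl⟩ := hsurj x
    show E ψ (p y) * E φ (p y) = E (ψ * φ) (p y)
    rw [hE, hE, hE]
    rfl
  have hEone : E 1 = 1 := by
    ext1 x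
    obtain ⟨y, rfl⟩ := hsurj x
    rw [hE]
    rfl
  have hEinv : ∀ ψ : Λ, (E ψ)⁻¹ = E ψ⁻¹ := by
    intro ψ
    rw [inv_eq_iff_mul_eq_one, hEmul, mul_inv_cancel, hEone]
  obtain ⟨s, c, hs, hc⟩ := g2_sw (Set.range E) ⟨1, hEone⟩
    (by rintro _ ⟨ψ, rfl⟩ _ ⟨φ, rfl⟩; exact ⟨_, (hEmul ψ φ).symm⟩)
    (by rintro _ ⟨ψ, rfl⟩; exact ⟨_, (hEinv ψ).symm⟩)
    (fun x y hxy => Subtype.ext (funext fun ψ => hxy (E ψ) ⟨ψ, rfl⟩)) F
    (ε := 1 / 2) (by norm_num)
  -- integrate against the conjugate of `χ`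
  have hint : ∀ f ∈ s, ∫ y, (starRingEnd ℂ) ((χ y : Circle) : ℂ) * (c f * (f (p y) : ℂ)) ∂m = 0 := by
    intro f hf
    obtain ⟨ψ, rfl⟩ := hs f hf
    have h1 : ∀ y, (starRingEnd ℂ) ((χ y : Circle) : ℂ) * (c (E ψ) * (E ψ (p y) : ℂ)) =
        c (E ψ) * (((χ⁻¹ * (ψ : PontryaginDual K)) y : Circle) : ℂ) := by
      intro y
      have h2 : (χ⁻¹ * (ψ : PontryaginDual K)) y = (χ y)⁻¹ * (ψ : PontryaginDual K) y := rfl
      rw [h2, hE, Circle.coe_mul, Circle.coe_inv_eq_conj]
      ring
    simp only [h1]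
    rw [integral_const_mul, S7.chr_int, mul_zero]
    intro h3
    apply hχ
    rw [inv_mul_eq_one] at h3
    rw [h3]
    exact ψ.2
  have hcont : ∀ f ∈ s, Continuous fun y =>
      (starRingEnd ℂ) ((χ y : Circle) : ℂ) * (c f * (f (p y) : ℂ)) := fun f _ => by
    have h1 : Continuous fun y => ((χ y : Circle) : ℂ) :=
      g2_cont.comp (map_continuous χ)
    have h2 : Continuous fun y => (f (p y) : ℂ) :=
      g2_cont.comp (f.continuous.comp hp)
    exact (Complex.continuous_conj.comp h1).mul (continuous_const.mul h2)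
  have hsum : ∫ y, (∑ f ∈ s, (starRingEnd ℂ) ((χ y : Circle) : ℂ) * (c f * (f (p y) : ℂ))) ∂m = 0 := by
    rw [integral_finsetSum]
    · exact Finset.sum_eq_zero hint
    · intro f hf
      exact (hcont f hf).integrable_of_hasCompactSupport (HasCompactSupport.of_compactSpace _)
  have hbd : ∀ y, ‖1 - ∑ f ∈ s, (starRingEnd ℂ) ((χ y : Circle) : ℂ) * (c f * (f (p y) : ℂ))‖ ≤
      1 / 2 := by
    intro y
    have h1 := hc (p y)
    have h2 : F (p y) = ((χ y : Circle) : ℂ) := hFp y
    rw [h2] at h1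
    have h3 : (starRingEnd ℂ) ((χ y : Circle) : ℂ) * ((χ y : Circle) : ℂ) = 1 := by
      rw [← Circle.coe_inv_eq_conj, ← Circle.coe_mul, inv_mul_cancel, Circle.coe_one]
    have h4 : 1 - ∑ f ∈ s, (starRingEnd ℂ) ((χ y : Circle) : ℂ) * (c f * (f (p y) : ℂ)) =
        (starRingEnd ℂ) ((χ y : Circle) : ℂ) *
          (((χ y : Circle) : ℂ) - ∑ f ∈ s, c f * (f (p y) : ℂ)) := by
      rw [mul_sub, h3, Finset.mul_sum]
    rw [h4, norm_mul, RCLike.norm_conj, Circle.norm_coe, one_mul]
    exact h1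
  have h5 : ∫ y, (1 - ∑ f ∈ s, (starRingEnd ℂ) ((χ y : Circle) : ℂ) *
      (c f * (f (p y) : ℂ))) ∂m = 1 := by
    rw [integral_sub (integrable_const _), hsum]
    · simp
    · exact (continuous_finsetSum s hcont).integrable_of_hasCompactSupport
        (HasCompactSupport.of_compactSpace _)
  have h6 := norm_integral_le_of_norm_le_const (μ := m) (Filter.Eventually.of_forall hbd)
  rw [h5] at h6
  simp at h6
  norm_num at h6

/- END g2 -/

end Pool.Agent.S7d
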