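import Pool.Agent.S7d.G1
import Pool.Agent.S7d.G2

set_option autoImplicit false

namespace Pool.Agent.S7d

open MeasureTheory Filter Topology
open Pool.Agent.Sar (blk pib)
open Pool.Agent.S7 (KD DS Kq rt BMf)

variable {K : Type*} [CommGroup K] [TopologicalSpace K] [IsTopologicalGroup K] [CompactSpace K]
  [T2Space K] [SecondCountableTopology K] [MeasurableSpace K] [BorelSpace K]
  {u : K} {m : Measure K} [IsProbabilityMeasure m] [m.IsHaarMeasure]

/- BEGIN g3 -/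

/-- If `Λ` meets the `n`-torsion trivially there is `h ∈ Λ^⊥` with residue `1` mod `n`.
Proof: otherwise the residues of `Λ^⊥` form a proper subgroup of `ZMod n`, contained in `d ZMod n`
for some divisor `d ≥ 2` of `n`; the character `θ` of `exists_theta` is trivial on `Λ^⊥`, so `θ ∈ Λ`
by `double_annih`, and `θ ^ n = 1`, `θ ≠ 1`: contradiction. -/
theorem exists_ann_res (hK : KD K u) (m : Measure K) [IsProbabilityMeasure m] [m.IsHaarMeasure]
    (Λ : Subgroup (PontryaginDual K)) {n : ℕ} (hn : 1 ≤ n)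
    (hΛ : ∀ ψ ∈ Λ, ψ ^ n = 1 → ψ = 1) : ∃ h ∈ Ann Λ, res u n h = 1 := by
  by_contra hcon
  push Not at hcon
  have hNe : NeZero n := ⟨by omega⟩
  have h1A : (1 : K) ∈ Ann Λ := fun ψ _ => map_one ψ
  have hmulA : ∀ a ∈ Ann Λ, ∀ b ∈ Ann Λ, a * b ∈ Ann Λ := by
    intro a ha b hb ψ hψ
    rw [map_mul, ha ψ hψ, hb ψ hψ, one_mul]
  have hinvA : ∀ a ∈ Ann Λ, a⁻¹ ∈ Ann Λ := by
    intro a ha ψ hψ
    rw [map_inv, ha ψ hψ, inv_one]
  have hr1 : res u n (1 : K) = 0 := by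
    have h := res_mul hK hn (1 : K) 1
    rw [one_mul] at h
    simpa using h
  have hrinv : ∀ a : K, res u n a⁻¹ = - res u n a := by
    intro a
    have h := res_mul hK hn a⁻¹ a
    rw [inv_mul_cancel, hr1] at h
    exact eq_neg_of_add_eq_zero_left h.symm
  -- the subgroup of the integers
  let T : AddSubgroup ℤ :=
    { carrier := {k : ℤ | ∃ h ∈ Ann Λ, res u n h = (k : ZMod n)}
      zero_mem' := ⟨1, h1A, by rw [hr1, Int.cast_zero]⟩
      add_mem' := by
        rintro a b ⟨h, hh, e⟩ ⟨h', hh', e'⟩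
        exact ⟨h * h', hmulA _ hh _ hh', by rw [res_mul hK hn, e, e', Int.cast_add]⟩
      neg_mem' := by
        rintro a ⟨h, hh, e⟩
        exact ⟨h⁻¹, hinvA _ hh, by rw [hrinv, e, Int.cast_neg]⟩ }
  obtain ⟨d0, hd0⟩ := Int.subgroup_cyclic T
  have hmem : ∀ k : ℤ, k ∈ T ↔ d0 ∣ k := by
    intro k
    rw [hd0, AddSubgroup.mem_closure_singleton]
    constructor
    · rintro ⟨c, hc⟩
      exact ⟨c, by rw [← hc, smul_eq_mul, mul_comm]⟩
    · rintro ⟨c, hc⟩
      exact ⟨c, by rw [hc, smul_eq_mul, mul_comm]⟩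
  have hnT : (n : ℤ) ∈ T := ⟨1, h1A, by rw [hr1]; simp⟩
  have hdn0 : d0 ∣ (n : ℤ) := (hmem _).1 hnT
  have h1T : ¬ (1 : ℤ) ∈ T := by
    rintro ⟨h, hh, e⟩
    exact hcon h hh (by rw [e, Int.cast_one])
  have hdn : d0.natAbs ∣ n := by
    have := Int.natAbs_dvd_natAbs.2 hdn0
    simpa using this
  have hd1 : d0.natAbs ≠ 1 := by
    intro h
    apply h1T
    rw [hmem]
    exact (Int.isUnit_iff_natAbs_eq.2 h).dvd
  have hdpos : d0.natAbs ≠ 0 := by
    intro h
    rw [h] at hdn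
    have := Nat.eq_zero_of_zero_dvd hdn
    omega
  have hd2 : 2 ≤ d0.natAbs := by omega
  obtain ⟨θ, hθ1, hθd, hθ⟩ := exists_theta hK hd2
  have hθA : ∀ y ∈ Ann Λ, θ y = 1 := by
    intro y hy
    apply hθ
    rw [← res_compat hK hn hdn y]
    have hk : ((((res u n y).val : ℕ) : ℤ) : ZMod n) = res u n y := by
      rw [Int.cast_natCast, ZMod.natCast_zmod_val]
    have hkT : (((res u n y).val : ℕ) : ℤ) ∈ T := ⟨y, hy, hk.symm⟩
    rw [hmem] at hkT
    have hkd : d0.natAbs ∣ (res u n y).val := by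
      exact Int.natCast_dvd_natCast.1 (Int.natAbs_dvd.2 hkT)
    rw [← hk, map_intCast, Int.cast_natCast]
    exact (ZMod.natCast_eq_zero_iff _ _).2 hkd
  have hθΛ := double_annih m Λ θ hθA
  apply hθ1
  apply hΛ θ hθΛ
  obtain ⟨c, hc⟩ := hdn
  rw [hc, pow_mul, hθd, one_pow]

/-- independence of the residue and of an invariant set: translation by `h` maps
`{res = r} ∩ A` onto `{res = r + 1} ∩ A` -/
theorem res_indep (hK : KD K u) (Λ : Subgroup (PontryaginDual K)) {n : ℕ} (hn : 1 ≤ n)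
    (hΛ : ∀ ψ ∈ Λ, ψ ^ n = 1 → ψ = 1) {A : Set K} (hA : MeasurableSet[AK Λ] A) (r : ZMod n) :
    m.real (A ∩ res u n ⁻¹' {r}) = m.real A / n := by
  have hNe : NeZero n := ⟨by omega⟩
  obtain ⟨h, hh, hr⟩ := exists_ann_res hK m Λ hn hΛ
  have hAm : MeasurableSet A := hA.1
  have hAi : ∀ h ∈ Ann Λ, ∀ x, h * x ∈ A ↔ x ∈ A := hA.2
  have hstep : ∀ r : ZMod n, m.real (A ∩ res u n ⁻¹' {r + 1}) = m.real (A ∩ res u n ⁻¹' {r}) := by
    intro r
    have hpre : (fun x => h * x) ⁻¹' (A ∩ res u n ⁻¹' {r + 1}) = A ∩ res u n ⁻¹' {r} := by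
      ext x
      simp only [Set.mem_preimage, Set.mem_inter_iff, Set.mem_singleton_iff]
      rw [hAi h hh x, res_mul hK hn, hr, add_comm (1 : ZMod n), add_left_inj]
    rw [measureReal_def, measureReal_def, ← hpre, measure_preimage_mul]
  have hall : ∀ k : ℕ, m.real (A ∩ res u n ⁻¹' {(k : ZMod n)}) = m.real (A ∩ res u n ⁻¹' {(0 : ZMod n)}) := by
    intro k
    induction k with
    | zero => rw [Nat.cast_zero]
    | succ k ih => rw [Nat.cast_succ, hstep, ih]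
  have hall' : ∀ r : ZMod n, m.real (A ∩ res u n ⁻¹' {r}) = m.real (A ∩ res u n ⁻¹' {(0 : ZMod n)}) := by
    intro r
    have := hall r.val
    rwa [ZMod.natCast_zmod_val] at this
  have hsum : m.real A = ∑ r : ZMod n, m.real (A ∩ res u n ⁻¹' {r}) := by
    rw [← measureReal_biUnion_finset]
    · congr 1
      ext x
      simp
    · intro i _ j _ hij
      refine Set.disjoint_left.2 fun x hx hx' => hij ?_
      exact hx.2.symm.trans hx'.2
    · intro i _
      exact hAm.inter (res_meas hK hn i)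
  have hcard : m.real A = n * m.real (A ∩ res u n ⁻¹' {(0 : ZMod n)}) := by
    rw [hsum, Finset.sum_congr rfl (fun r _ => hall' r), Finset.sum_const, Finset.card_univ, ZMod.card,
      nsmul_eq_mul]
  have hn0 : (n : ℝ) ≠ 0 := by
    have : n ≠ 0 := by omega
    exact_mod_cast this
  rw [hall' r, hcard]
  field_simp

/-- the same for a finite family of primes (Chinese remainder theorem, `res_compat`) -/
theorem res_indep_family (hK : KD K u) (Λ : Subgroup (PontryaginDual K)) {q0 : ℕ}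
    (hΛ : ∀ n, OKn q0 n → ∀ θ ∈ Λ, θ ^ n = 1 → θ = 1) (B : Finset ℕ)
    (hB : ∀ q ∈ B, q.Prime ∧ q0 ≤ q) (a : (q : ℕ) → ZMod q) {A : Set K}
    (hA : MeasurableSet[AK Λ] A) :
    m.real (A ∩ {x | ∀ q ∈ B, res u q x = a q}) = m.real A / ∏ q ∈ B, (q : ℝ) := by
  have hcop : (B : Set ℕ).Pairwise (Function.onFun Nat.Coprime fun q => q) := by
    intro p hp q hq hpq
    exact (Nat.coprime_primes (hB p hp).1 (hB q hq).1).2 hpq
  have hn : 1 ≤ ∏ q ∈ B, q := Finset.prod_pos fun q hq => (hB q hq).1.pos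
  have hNe : NeZero (∏ q ∈ B, q) := ⟨by omega⟩
  have hOK : OKn q0 (∏ q ∈ B, q) := by
    refine ⟨?_, ?_⟩
    · refine Finset.squarefree_prod_of_pairwise_isCoprime ?_ ?_
      · intro p hp q hq hpq
        exact (Nat.coprime_iff_isRelPrime.1 (hcop hp hq hpq))
      · intro q hq
        exact (hB q hq).1.prime.squarefree
    · intro p hp hdvd
      obtain ⟨q, hq, hpq⟩ := (hp.prime.dvd_finsetProd_iff _).1 hdvd
      rw [(Nat.prime_dvd_prime_iff_eq hp (hB q hq).1).1 hpq]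
      exact (hB q hq).2
  obtain ⟨k, hk⟩ := Nat.chineseRemainderOfFinset (fun q => (a q).val) (fun q => q) B
    (fun q hq => (hB q hq).1.ne_zero) hcop
  have hset : {x : K | ∀ q ∈ B, res u q x = a q} = res u (∏ q ∈ B, q) ⁻¹' {(k : ZMod (∏ q ∈ B, q))} := by
    ext x
    simp only [Set.mem_preimage, Set.mem_singleton_iff]
    change (∀ q ∈ B, res u q x = a q) ↔ _
    have hka : ∀ q ∈ B, ((k : ℕ) : ZMod q) = a q := by
      intro q hq
      have hq0 : NeZero q := ⟨(hB q hq).1.ne_zero⟩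
      have h1 : ((k : ℕ) : ZMod q) = (((a q).val : ℕ) : ZMod q) :=
        (ZMod.natCast_eq_natCast_iff _ _ _).2 (hk q hq)
      rw [h1, ZMod.natCast_zmod_val]
    constructor
    · intro hx
      have hj : (((res u (∏ q ∈ B, q) x).val : ℕ) : ZMod (∏ q ∈ B, q)) = res u (∏ q ∈ B, q) x :=
        ZMod.natCast_zmod_val _
      rw [← hj]
      have hdv : ∀ q ∈ B, (q : ℤ) ∣ (k : ℤ) - ((res u (∏ q ∈ B, q) x).val : ℤ) := by
        intro q hq
        have h1 := res_compat hK hn (Finset.dvd_prod_of_mem (fun q => q) hq) x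
        rw [← hj, map_natCast, hx q hq, ← hka q hq] at h1
        exact (ZMod.intCast_eq_intCast_iff_dvd_sub _ _ _).1 (by exact_mod_cast h1)
      have hprod : (∏ q ∈ B, (q : ℤ)) ∣ (k : ℤ) - ((res u (∏ q ∈ B, q) x).val : ℤ) := by
        refine Finset.prod_dvd_of_coprime ?_ hdv
        intro p hp q hq hpq
        exact Nat.isCoprime_iff_coprime.2 (hcop hp hq hpq)
      have h2 : (((res u (∏ q ∈ B, q) x).val : ℤ) : ZMod (∏ q ∈ B, q)) = ((k : ℤ) : ZMod (∏ q ∈ B, q)) := by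
        rw [ZMod.intCast_eq_intCast_iff_dvd_sub]
        rw [Nat.cast_prod]
        exact hprod
      exact_mod_cast h2
    · intro hx q hq
      have h1 := res_compat hK hn (Finset.dvd_prod_of_mem (fun q => q) hq) x
      rw [hx, map_natCast] at h1
      rw [← h1, hka q hq]
  rw [hset, res_indep hK Λ hn (hΛ _ hOK) hA, Nat.cast_prod]

/- END g3 -/

/- BEGIN g4 -/

section g4

/-- roots in an abelian group: the torsion case -/
private theorem g4_tor {G : Type*} [CommGroup G] {χ : G} {Q0 : ℕ} (h1 : 1 ≤ Q0)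
    (hχ : χ ^ Q0 = 1) :
    ∃ ψ : ℕ → G, (∀ q, q.Prime → Q0 + 2 ≤ q → ψ q ^ q = χ) ∧
      (∀ n, OKn (Q0 + 2) n → ∀ θ ∈ Subgroup.closure (Set.range ψ), θ ^ n = 1 → θ = 1) ∧
      (Set.range ψ).Finite := by
  have hfin : IsOfFinOrder χ := isOfFinOrder_iff_pow_eq_one.2 ⟨Q0, h1, hχ⟩
  have hsub : Set.range (fun q : ℕ => χ ^ (Nat.gcdA q Q0)) ⊆
      (Subgroup.zpowers χ : Set G) := by
    rintro _ ⟨q, rfl⟩
    exact ⟨_, rfl⟩
  refine ⟨fun q => χ ^ (Nat.gcdA q Q0), ?_, ?_, ?_⟩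
  · intro q hq hqQ
    have hcop : Nat.gcd q Q0 = 1 := by
      refine (Nat.Prime.coprime_iff_not_dvd hq).2 fun hd => ?_
      have := Nat.le_of_dvd h1 hd
      omega
    have hb : (1 : ℤ) = q * Nat.gcdA q Q0 + Q0 * Nat.gcdB q Q0 := by
      have := Nat.gcd_eq_gcd_ab q Q0
      rw [hcop] at this
      exact_mod_cast this
    have e1 : (Nat.gcdA q Q0) * (q : ℤ) = 1 - Q0 * Nat.gcdB q Q0 := by linarith
    rw [← zpow_natCast, ← zpow_mul, e1, zpow_sub, zpow_mul, zpow_natCast, hχ]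
    simp
  · intro n hn θ hθ hθn
    have hθ' : θ ∈ Subgroup.zpowers χ := (Subgroup.closure_le _).2 hsub hθ
    obtain ⟨k, hk⟩ := Subgroup.mem_zpowers_iff.1 hθ'
    have hQ : θ ^ Q0 = 1 := by
      rw [← hk, ← zpow_natCast, ← zpow_mul, mul_comm, zpow_mul, zpow_natCast, hχ, one_zpow]
    have hcop : Nat.gcd n Q0 = 1 := by
      refine Nat.coprime_of_dvd fun p hp hpn hpQ => ?_
      have := hn.2 p hp hpn
      have := Nat.le_of_dvd h1 hpQ
      omega
    have := pow_gcd_eq_one.2 ⟨hθn, hQ⟩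
    rwa [hcop, pow_one] at this
  · exact (finite_zpowers.2 hfin).subset hsub

private theorem g4_sum {G : Type*} [CommGroup G] (χ : G) (B : Finset ℕ) (f : ℕ → ℤ) :
    ∏ q ∈ B, χ ^ f q = χ ^ ∑ q ∈ B, f q := by
  classical
  induction B using Finset.induction_on with
  | empty => simp
  | insert a s ha ih => rw [Finset.prod_insert ha, Finset.sum_insert ha, zpow_add, ih]

/-- roots in an abelian group: the non-torsion case -/
private theorem g4_free {G : Type*} [CommGroup G] {χ : G} (hχ : ¬ IsOfFinOrder χ) {ψ : ℕ → G}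
    (hp : ∀ q, q.Prime → ψ q ^ q = χ) (h1 : ∀ q, ¬ q.Prime → ψ q = 1) {n : ℕ} (hn : 1 ≤ n)
    {θ : G} (hθ : θ ∈ Subgroup.closure (Set.range ψ)) (hθn : θ ^ n = 1) : θ = 1 := by
  classical
  obtain ⟨a, ha⟩ := Subgroup.exists_finsupp_of_mem_closure_range ψ θ hθ
  have hinj := injective_zpow_iff_not_isOfFinOrder.2 hχ
  set B : Finset ℕ := a.support.filter Nat.Prime with hB
  have hBp : ∀ q ∈ B, q.Prime := fun q hq => (Finset.mem_filter.1 hq).2
  have hθB : θ = ∏ q ∈ B, ψ q ^ a q := by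
    rw [ha, Finsupp.prod, hB, Finset.prod_filter]
    refine Finset.prod_congr rfl fun q _ => ?_
    split_ifs with h
    · rfl
    · rw [h1 q h, one_zpow]
  set P : ℕ := ∏ q ∈ B, q with hP
  have hPe : ∀ q ∈ B, q * (∏ p ∈ B.erase q, p) = P :=
    fun q hq => Finset.mul_prod_erase B (fun p => p) hq
  have hP1 : 1 ≤ P := Finset.prod_pos fun q hq => (hBp q hq).pos
  have hθP : θ ^ P = χ ^ (∑ q ∈ B, a q * ((∏ p ∈ B.erase q, p : ℕ) : ℤ)) := by
    rw [hθB, ← Finset.prod_pow]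
    have : ∀ q ∈ B, (ψ q ^ a q) ^ P = χ ^ (a q * ((∏ p ∈ B.erase q, p : ℕ) : ℤ)) := by
      intro q hq
      rw [← hp q (hBp q hq), ← hPe q hq]
      rw [← zpow_natCast, ← zpow_natCast (ψ q), ← zpow_mul, ← zpow_mul]
      congr 1
      push_cast
      ring
    rw [Finset.prod_congr rfl this]
    exact g4_sum χ B _
  have hsum : ∑ q ∈ B, a q * ((∏ p ∈ B.erase q, p : ℕ) : ℤ) = 0 := by
    have h2 : χ ^ ((∑ q ∈ B, a q * ((∏ p ∈ B.erase q, p : ℕ) : ℤ)) * (n : ℤ)) = χ ^ (0 : ℤ) := by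
      rw [zpow_mul, ← hθP, zpow_natCast, ← pow_mul, mul_comm, pow_mul, hθn, one_pow, zpow_zero]
    have h3 := hinj h2
    rcases mul_eq_zero.1 h3 with h | h
    · exact h
    · have : n = 0 := by exact_mod_cast h
      omega
  have hdvd : ∀ q ∈ B, (q : ℤ) ∣ a q := by
    intro q hq
    have hqp : Prime (q : ℤ) := Nat.prime_iff_prime_int.1 (hBp q hq)
    have h4 : (q : ℤ) ∣ ∑ r ∈ B.erase q, a r * ((∏ p ∈ B.erase r, p : ℕ) : ℤ) := by
      refine Finset.dvd_sum fun r hr => ?_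
      have hqr : q ∈ B.erase r := Finset.mem_erase.2 ⟨fun h => (Finset.mem_erase.1 hr).1 h.symm, hq⟩
      have : q ∣ ∏ p ∈ B.erase r, p := Finset.dvd_prod_of_mem (fun p => p) hqr
      exact Dvd.dvd.mul_left (by exact_mod_cast this) _
    have h5 : (q : ℤ) ∣ a q * ((∏ p ∈ B.erase q, p : ℕ) : ℤ) := by
      rw [← Finset.add_sum_erase B _ hq] at hsum
      exact (dvd_add_left h4).1 (hsum ▸ dvd_zero _)
    rcases hqp.dvd_or_dvd h5 with h | h
    · exact h
    · exfalso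
      have h6 : q ∣ ∏ p ∈ B.erase q, p := by exact_mod_cast h
      obtain ⟨p, hp1, hp2⟩ := ((hBp q hq).prime.dvd_finsetProd_iff _).1 h6
      have hp3 := (Nat.prime_dvd_prime_iff_eq (hBp q hq) (hBp p (Finset.mem_erase.1 hp1).2)).1 hp2
      exact (Finset.mem_erase.1 hp1).1 hp3.symm
  choose! b hb using hdvd
  have hb0 : ∑ q ∈ B, b q = 0 := by
    have h7 : (P : ℤ) * ∑ q ∈ B, b q = 0 := by
      rw [← hsum, Finset.mul_sum]
      refine Finset.sum_congr rfl fun q hq => ?_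
      rw [← hPe q hq]
      conv_rhs => rw [hb q hq]
      push_cast
      ring
    rcases mul_eq_zero.1 h7 with h | h
    · have : P = 0 := by exact_mod_cast h
      omega
    · exact h
  rw [hθB]
  have h8 : ∀ q ∈ B, ψ q ^ a q = χ ^ b q := by
    intro q hq
    rw [hb q hq, zpow_mul, zpow_natCast, hp q (hBp q hq)]
  rw [Finset.prod_congr rfl h8, g4_sum, hb0, zpow_zero]

private theorem g4_dist {G : Type*} [CommGroup G] {χ : G} (hχ : ¬ IsOfFinOrder χ) {ψ : ℕ → G}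
    (hp : ∀ q, q.Prime → ψ q ^ q = χ) {q q' h : ℕ} (hh : 1 ≤ h) (hq : q.Prime) (hq' : q'.Prime)
    (hqh : (q + h).Prime) (hqh' : (q' + h).Prime)
    (he : (ψ q)⁻¹ * ψ (q + h) = (ψ q')⁻¹ * ψ (q' + h)) : q = q' := by
  have hinj := injective_zpow_iff_not_isOfFinOrder.2 hχ
  have key : ∀ (q N : ℕ), q.Prime → (q + h).Prime →
      ((ψ q)⁻¹ * ψ (q + h)) ^ (q * (q + h) * N) = χ ^ (-((h * N : ℕ) : ℤ)) := by
    intro q N hq hqh
    have e1 : ((ψ q)⁻¹) ^ (q * (q + h) * N) = χ ^ (-(((q + h) * N : ℕ) : ℤ)) := by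
      rw [inv_pow, mul_assoc, pow_mul, hp q hq, zpow_neg, zpow_natCast]
    have e2 : (ψ (q + h)) ^ (q * (q + h) * N) = χ ^ (((q * N : ℕ) : ℤ)) := by
      rw [mul_comm q (q + h), mul_assoc, pow_mul, hp _ hqh, zpow_natCast]
    rw [mul_pow, e1, e2, ← zpow_add]
    congr 1
    push_cast
    ring
  have k1 := key q (q' * (q' + h)) hq hqh
  have k2 := key q' (q * (q + h)) hq' hqh'
  rw [he, mul_comm (q * (q + h)), k2] at k1
  have k3 : (-((h * (q * (q + h)) : ℕ) : ℤ)) = (-((h * (q' * (q' + h)) : ℕ) : ℤ)) := hinj k1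
  have k4 : h * (q * (q + h)) = h * (q' * (q' + h)) := by exact_mod_cast neg_injective k3
  have k5 : q * (q + h) = q' * (q' + h) := Nat.eq_of_mul_eq_mul_left (by omega) k4
  rcases lt_trichotomy q q' with hlt | heq | hlt
  · exfalso; nlinarith
  · exact heq
  · exfalso; nlinarith

end g4

/-- **choice of the roots** (D2).
Proof.  `χ` of finite order `Q0`: `q0 = Q0 + 2`, `ψ_q = χ ^ q'` with `q q' = 1` mod `Q0` for primes
`q ≥ q0`, `ψ_q = 1` otherwise.  All `ψ_q` lie in the finite group generated by `χ`, whose exponent `Q0` is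
prime to every `n` with `OKn q0 n`.
Otherwise any roots (`KD.div`) for the primes, `1` otherwise, `q0 = 2`: if `λ = ∏ ψ_q ^ (k q)` (finite
product over primes, `k q` integers) has finite order then, raising to the power `∏ q`,
`∑ k_q / q = 0`, so `q ∣ k_q` for all `q` and `λ = χ ^ (∑ k_q / q) = 1`.  Distinctness: raising
`ψ_q⁻¹ ψ_{q+h} = ψ_{q'}⁻¹ ψ_{q'+h}` to the power `q (q+h) q' (q'+h)` gives
`-1/q + 1/(q+h) = -1/q' + 1/(q'+h)`, i.e. `q (q+h) = q' (q'+h)`. -/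
theorem choice (hK : KD K u) (χ : PontryaginDual K) :
    ∃ (q0 : ℕ) (ψ : ℕ → PontryaginDual K), Choice χ q0 ψ := by
  classical
  by_cases hχ : IsOfFinOrder χ
  · obtain ⟨Q0, h1, h2⟩ := isOfFinOrder_iff_pow_eq_one.1 hχ
    obtain ⟨ψ, p1, p2, p3⟩ := g4_tor h1 h2
    exact ⟨Q0 + 2, ψ, by omega, p1, p2, Or.inl p3⟩
  · have hex : ∀ q : ℕ, ∃ ψ : PontryaginDual K, (q.Prime → ψ ^ q = χ) ∧ (¬ q.Prime → ψ = 1) := by
      intro q
      by_cases hq : q.Prime
      · obtain ⟨ψ, hψ⟩ := hK.div q hq.one_lt.le χ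
        exact ⟨ψ, fun _ => hψ, fun h => absurd hq h⟩
      · exact ⟨1, fun h => absurd h hq, fun _ => rfl⟩
    choose ψ p1 p2 using hex
    refine ⟨2, ψ, le_rfl, fun q hq _ => p1 q hq, ?_, Or.inr ?_⟩
    · intro n hn θ hθ hθn
      have hn1 : 1 ≤ n := Nat.one_le_iff_ne_zero.2 hn.1.ne_zero
      exact g4_free hχ p1 p2 hn1 hθ hθn
    · intro q q' h hh hq hq' hqh hqh' _ _ he
      exact g4_dist hχ p1 hh hq hq' hqh hqh' he

/- END g4 -/

end Pool.Agent.S7d
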