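import Pool.Agent.S7d.G1

set_option autoImplicit false

namespace Pool.Agent.S7d

open MeasureTheory Filter Topology
open scoped ENNReal
open Pool.Agent.Sar (blk pib)
open Pool.Agent.S7 (KD DS Kq rt BMf)

variable {K : Type*} [CommGroup K] [TopologicalSpace K] [IsTopologicalGroup K] [CompactSpace K]
  [T2Space K] [SecondCountableTopology K] [MeasurableSpace K] [BorelSpace K]
  {u : K} {m : Measure K} [IsProbabilityMeasure m] [m.IsHaarMeasure]
  {Z : Type*} [MeasurableSpace Z] {M : Measure Z} {S : Z ≃ᵐ Z} {y : Z → K} {s l : Z → ℝ}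

/- BEGIN i1 -/

theorem i1_meas (hD : DS u m M S y s l) (α β : ℝ) (A : Set K) (hA : MeasurableSet A) :
    M (y ⁻¹' A ∩ s ⁻¹' Set.Ioc α β) = m A * ENNReal.ofReal (β - α) := by
  have h1 : M.map (fun z => (y z, s z)) (A ×ˢ Set.Ioc α β) = m A * ENNReal.ofReal (β - α) := by
    rw [hD.law, Measure.prod_prod, Real.volume_Ioc]
  rw [Measure.map_apply (hD.ym.prodMk hD.sm) (hA.prod measurableSet_Ioc)] at h1
  rw [← h1]
  rfl

/-- the law of `y` under `M` restricted to `s ∈ (α, β]` -/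
theorem map_y (hD : DS u m M S y s l) {α β : ℝ} (hαβ : α ≤ β) :
    (M.restrict (s ⁻¹' Set.Ioc α β)).map y = ENNReal.ofReal (β - α) • m := by
  ext A hA
  rw [Measure.map_apply hD.ym hA, Measure.restrict_apply (hD.ym hA), i1_meas hD α β A hA,
    Measure.smul_apply, smul_eq_mul, mul_comm]

theorem i1_J (hD : DS u m M S y s l) (α β : ℝ) :
    M (s ⁻¹' Set.Ioc α β) = ENNReal.ofReal (β - α) := by
  have h := i1_meas hD α β Set.univ MeasurableSet.univ
  rw [Set.preimage_univ, Set.univ_inter, measure_univ, one_mul] at h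
  exact h

theorem fin_J (hD : DS u m M S y s l) (α β : ℝ) : IsFiniteMeasure (M.restrict (s ⁻¹' Set.Ioc α β)) := by
  refine ⟨?_⟩
  rw [Measure.restrict_apply_univ, i1_J hD]
  exact ENNReal.ofReal_lt_top

theorem meas_J (hD : DS u m M S y s l) {α β : ℝ} (hαβ : α ≤ β) :
    M.real (s ⁻¹' Set.Ioc α β) = β - α := by
  rw [Measure.real, i1_J hD, ENNReal.toReal_ofReal (by linarith)]

/-- `S` preserves `M` restricted to `s ∈ (α, β]` -/
theorem mp_J (hD : DS u m M S y s l) (α β : ℝ) :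
    MeasurePreserving S (M.restrict (s ⁻¹' Set.Ioc α β)) (M.restrict (s ⁻¹' Set.Ioc α β)) := by
  have h := hD.inv.restrict_preimage (hD.sm (measurableSet_Ioc (a := α) (b := β)))
  have h2 : S ⁻¹' (s ⁻¹' Set.Ioc α β) = s ⁻¹' Set.Ioc α β := by
    ext z
    simp only [Set.mem_preimage, hD.sS]
  rw [h2] at h
  exact h

theorem int_comp_S (hD : DS u m M S y s l) (α β : ℝ) (n : ℕ) (f : Z → ℂ) :
    ∫ z in s ⁻¹' Set.Ioc α β, f (S^[n] z) ∂M = ∫ z in s ⁻¹' Set.Ioc α β, f z ∂M := by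
  induction n with
  | zero => rfl
  | succ n ih =>
    rw [← ih]
    exact (mp_J hD α β).integral_comp' (fun z => f (S^[n] z))

theorem y_iter (hD : DS u m M S y s l) (n : ℕ) (z : Z) : y (S^[n] z) = u ^ n * y z := by
  induction n with
  | zero => simp
  | succ n ih => rw [Function.iterate_succ_apply', hD.yS, ih, pow_succ', mul_assoc]

theorem i1_l (hD : DS u m M S y s l) (z : Z) : ‖(l z : ℂ)‖ = 1 := by
  rcases hD.l1 z with h | h <;> rw [h] <;> simp

/-- `|∫ φ(y) l l_n| ≤ |J| ∫ |φ|` -/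
theorem norm_cor_le (hD : DS u m M S y s l) {α β : ℝ} (hαβ : α ≤ β) {φ : K → ℂ} (hφ : BMf φ)
    (n : ℕ) : ‖cor M S y s l α β φ n‖ ≤ (β - α) * ∫ x, ‖φ x‖ ∂m := by
  unfold cor
  refine le_trans (norm_integral_le_integral_norm _) ?_
  have h1 : ∀ z, ‖φ (y z) * ((l z * l (S^[n] z) : ℝ) : ℂ)‖ = ‖φ (y z)‖ := by
    intro z
    push_cast
    rw [norm_mul, norm_mul, i1_l hD, i1_l hD, mul_one, mul_one]
  have h2 : ∫ z in s ⁻¹' Set.Ioc α β, ‖φ (y z) * ((l z * l (S^[n] z) : ℝ) : ℂ)‖ ∂M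
      = ∫ z in s ⁻¹' Set.Ioc α β, ‖φ (y z)‖ ∂M := by
    simp only [h1]
  have h3 : ∫ z in s ⁻¹' Set.Ioc α β, ‖φ (y z)‖ ∂M
      = ∫ x, ‖φ x‖ ∂((M.restrict (s ⁻¹' Set.Ioc α β)).map y) := by
    rw [integral_map hD.ym.aemeasurable]
    exact hφ.meas.norm.aestronglyMeasurable
  rw [h2, h3, map_y hD hαβ, integral_smul_measure, ENNReal.toReal_ofReal (by linarith),
    smul_eq_mul]

/- END i1 -/

/- BEGIN i2 -/

private theorem i2_iter (hD : DS u m M S y s l) {q : ℕ} {D : Z → Z}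
    (hDS : ∀ z, y z ∈ Kq K q → D (S^[q] z) = S (D z)) (e : ℕ) (z : Z) (hz : y z ∈ Kq K q) :
    y (S^[q * e] z) ∈ Kq K q ∧ D (S^[q * e] z) = S^[e] (D z) := by
  induction e with
  | zero => simpa using hz
  | succ e ih =>
    obtain ⟨h1, h2⟩ := ih
    have e1 : S^[q * (e + 1)] z = S^[q] (S^[q * e] z) := by
      rw [← Function.iterate_add_apply]; congr 1; ring
    refine ⟨?_, ?_⟩
    · rw [y_iter hD]
      obtain ⟨x, hx⟩ := hz
      refine ⟨u ^ (e + 1) * x, ?_⟩
      simp only at hx ⊢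
      rw [mul_pow, hx, ← pow_mul, mul_comm (e + 1) q]
    · rw [e1, hDS _ h1, h2, Function.iterate_succ_apply']

private theorem i2_pow (ψ : PontryaginDual K) (q : ℕ) (x : K) : (ψ ^ q) x = ψ x ^ q := by
  induction q with
  | zero => rw [pow_zero, pow_zero]; rfl
  | succ n ih =>
    rw [pow_succ, pow_succ, ← ih]
    rfl

/-- **the dilation identity** (D2): with `D` from `DS.dil q`, for `y z ∈ K^q`:
`l (D z) = - l z`, `l (S^e (D z)) = l (D (S^(q e) z)) = - l (S^(q e) z)`,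
`χ (y (D z)) = ψ (y (D z)) ^ q = ψ (y (D z) ^ q) = ψ (y z)`, `s (D z) = s z - log q`. -/
theorem dil_id (hK : KD K u) (hD : DS u m M S y s l) {q : ℕ} (hq : q.Prime)
    {ψ χ : PontryaginDual K} (hψ : ψ ^ q = χ) (e : ℕ) (α β : ℝ) :
    cor M S y s l (α - Real.log q) (β - Real.log q) (fun x => (χ x : ℂ)) e =
      ∫ z in s ⁻¹' Set.Ioc α β, ((q : ℂ) * (if res u q (y z) = 0 then 1 else 0)) *
        (ψ (y z) : ℂ) * ((l z * l (S^[q * e] z) : ℝ) : ℂ) ∂M := by
  obtain ⟨D, hDm, hDp, hDmap⟩ := hD.dil q hq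
  have hq1 : 1 ≤ q := hq.one_lt.le
  have hq0 : (q : ℝ≥0∞) ≠ 0 := by
    simpa using hq.ne_zero
  set A : Set Z := {z | y z ∈ Kq K q} with hA
  have hKm : MeasurableSet (Kq K q) := by
    have : Kq K q = res u q ⁻¹' {0} := by
      ext x
      rw [Set.mem_preimage, Set.mem_singleton_iff, res_eq_zero hK hq1]
    rw [this]
    exact res_meas hK hq1 0
  have hAm : MeasurableSet A := hD.ym hKm
  have hMeq : M = (q : ℝ≥0∞) • (M.restrict A).map D := by
    rw [hDmap, smul_smul, ENNReal.mul_inv_cancel hq0 (ENNReal.natCast_ne_top q), one_smul]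
  set B : Set Z := s ⁻¹' Set.Ioc α β with hB
  set B' : Set Z := s ⁻¹' Set.Ioc (α - Real.log q) (β - Real.log q) with hB'
  have hBm : MeasurableSet B := hD.sm measurableSet_Ioc
  have hBm' : MeasurableSet B' := hD.sm measurableSet_Ioc
  have hSm : ∀ n : ℕ, Measurable (S^[n]) := fun n => S.measurable.iterate n
  have hset : D ⁻¹' B' ∩ A = B ∩ A := by
    ext z
    simp only [Set.mem_inter_iff, Set.mem_preimage, hB, hB', Set.mem_Ioc]
    refine ⟨fun h => ⟨?_, h.2⟩, fun h => ⟨?_, h.2⟩⟩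
    · have h2 := (hDp z h.2).2.1
      rw [h2] at h
      exact ⟨by linarith [h.1.1], by linarith [h.1.2]⟩
    · have h2 := (hDp z h.2).2.1
      rw [h2]
      exact ⟨by linarith [h.1.1], by linarith [h.1.2]⟩
  have hres : M.restrict B' = (q : ℝ≥0∞) • (M.restrict (B ∩ A)).map D := by
    conv_lhs => rw [hMeq]
    rw [Measure.restrict_smul, Measure.restrict_map hDm hBm', Measure.restrict_restrict (hDm hBm'),
      hset]
  have hF : Measurable (fun z => ((χ (y z) : Circle) : ℂ) * ((l z * l (S^[e] z) : ℝ) : ℂ)) := by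
    refine Measurable.mul ?_ ?_
    · have hc : Continuous (fun x : K => ((χ x : Circle) : ℂ)) :=
        continuous_subtype_val.comp χ.continuous_toFun
      exact hc.measurable.comp hD.ym
    · exact Complex.measurable_ofReal.comp (hD.lm.mul (hD.lm.comp (hSm e)))
  unfold cor
  rw [hres, integral_smul_measure, integral_map hDm.aemeasurable hF.aestronglyMeasurable]
  have hR : ∀ z, ((q : ℂ) * (if res u q (y z) = 0 then 1 else 0)) *
        (ψ (y z) : ℂ) * ((l z * l (S^[q * e] z) : ℝ) : ℂ) =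
      A.indicator (fun z => (q : ℂ) * ((ψ (y z) : ℂ) * ((l z * l (S^[q * e] z) : ℝ) : ℂ))) z := by
    intro z
    by_cases hz : z ∈ A
    · rw [Set.indicator_of_mem hz, if_pos ((res_eq_zero hK hq1 _).2 hz)]
      ring
    · rw [Set.indicator_of_notMem hz, if_neg (fun h => hz ((res_eq_zero hK hq1 _).1 h))]
      ring
  simp_rw [hR]
  rw [setIntegral_indicator hAm, integral_const_mul]
  have h1 : ∀ z ∈ B ∩ A, ((χ (y (D z)) : Circle) : ℂ) * ((l (D z) * l (S^[e] (D z)) : ℝ) : ℂ) =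
      ((ψ (y z) : ℂ) * ((l z * l (S^[q * e] z) : ℝ) : ℂ)) := by
    intro z hz
    have hzA : y z ∈ Kq K q := hz.2
    obtain ⟨k1, k2⟩ := i2_iter hD (fun z hz => (hDp z hz).2.2.2) e z hzA
    have k3 : y (D z) ^ q = y z := (hDp z hzA).1
    have k4 : l (D z) = - l z := (hDp z hzA).2.2.1
    have k5 : l (D (S^[q * e] z)) = - l (S^[q * e] z) := (hDp _ k1).2.2.1
    have k6 : χ (y (D z)) = ψ (y z) := by
      rw [← hψ, ← k3, map_pow, i2_pow]
    rw [← k2, k4, k5, k6, neg_mul_neg]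
  rw [setIntegral_congr_fun (hBm.inter hAm) h1]
  simp

/- END i2 -/

end Pool.Agent.S7d
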