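import Pool.Agent.S7d.Defs
import Pool.Agent.S7e.Eng
import Pool.Agent.S7e.KvnM

set_option autoImplicit false

namespace Pool.Agent.S7d

open MeasureTheory Filter Topology
open Pool.Agent.Sar (blk pib)

/-! Number theory inputs, proved in `S7e` (helper12, helper47) and `Sar`, `SWz`. -/

/-- = `S7e.E3_use` (helper12) -/
theorem E3_use (ρ : ℤ → ℝ) (B : ℝ) (hB : ∀ k, |ρ k| ≤ B) (hs : ∀ k, ρ (-k) ^ 2 = ρ k ^ 2)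
    (hW : Tendsto (fun P : ℕ => (∑ n ∈ Finset.range P, ρ (n : ℤ) ^ 2) / P) atTop (𝓝 0))
    (e : ℕ) (he : 1 ≤ e) :
    Tendsto (fun m : ℕ => (∑ q ∈ blk m, ∑ q' ∈ blk m, ρ (((q' : ℤ) - (q : ℤ)) * e) ^ 2) /
      pib m ^ 2) atTop (𝓝 0) := S7e.E3_use ρ B hB hs hW e he

/-- = `S7e.kvn_real` (helper47) -/
theorem kvn_real {Z : Type*} [MeasurableSpace Z] (μ : Measure Z) [IsFiniteMeasure μ] (S : Z → Z)
    (hS : MeasurePreserving S μ μ) (l : Z → ℝ) (hl : Measurable l) (C : ℝ) (hC : ∀ z, |l z| ≤ C)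
    (h : ∀ w : ℂ, ‖w‖ = 1 → Tendsto (fun H : ℕ =>
      ∫ z, ‖(H : ℂ)⁻¹ * ∑ h ∈ Finset.range H, w ^ h * (l (S^[h] z) : ℂ)‖ ^ 2 ∂μ) atTop (𝓝 0)) :
    Tendsto (fun P : ℕ => (P : ℝ)⁻¹ * ∑ n ∈ Finset.range P, (∫ z, l z * l (S^[n] z) ∂μ) ^ 2)
      atTop (𝓝 0) := S7e.kvn_real μ S hS l hl C hC h

/-- = `Sar.pib_lower SWz.swlam` -/
theorem pib_low : ∃ c : ℝ, 0 < c ∧ ∀ᶠ i : ℕ in atTop, c * 2 ^ i / i ≤ pib i :=
  Sar.pib_lower SWz.swlam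

end Pool.Agent.S7d
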