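import Pool.Agent.S7d.I1

set_option autoImplicit false

namespace Pool.Agent.S7d

open MeasureTheory Filter Topology
open scoped ENNReal ComplexConjugate
open Pool.Agent.Sar (blk pib)
open Pool.Agent.S7 (KD DS Kq rt BMf)

/- BEGIN t1 -/

private theorem t1_hilb {H : Type*} [NormedAddCommGroup H] [InnerProductSpace ℂ H] {ι : Type*}
    (B : Finset ι) (W : H) (V : ι → H) :
    ∑ q ∈ B, ‖inner ℂ W (V q)‖ ^ 2 ≤
      ‖W‖ ^ 2 * Real.sqrt (∑ q ∈ B, ∑ q' ∈ B, ‖inner ℂ (V q') (V q)‖ ^ 2) := by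
  obtain ⟨c, hc⟩ : ∃ c : ι → ℂ, ∀ q, inner ℂ W (V q) = c q := ⟨fun q => inner ℂ W (V q), fun _ => rfl⟩
  simp only [hc]
  obtain ⟨A, hA⟩ : ∃ A : ℝ, A = ∑ q ∈ B, ‖c q‖ ^ 2 := ⟨_, rfl⟩
  obtain ⟨G, hG⟩ : ∃ G : ℝ, G = ∑ q ∈ B, ∑ q' ∈ B, ‖inner ℂ (V q') (V q)‖ ^ 2 := ⟨_, rfl⟩
  obtain ⟨X, hX⟩ : ∃ X : H, X = ∑ q ∈ B, (starRingEnd ℂ) (c q) • V q := ⟨_, rfl⟩
  have hA0 : 0 ≤ A := hA ▸ Finset.sum_nonneg fun q _ => sq_nonneg _
  have hG0 : 0 ≤ G := hG ▸ Finset.sum_nonneg fun q _ => Finset.sum_nonneg fun q' _ => sq_nonneg _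
  rw [← hA, ← hG]
  have h1 : inner ℂ W X = ((A : ℝ) : ℂ) := by
    rw [hX, inner_sum, hA, Complex.ofReal_sum]
    refine Finset.sum_congr rfl fun q _ => ?_
    rw [inner_smul_right, hc, Complex.ofReal_pow, ← Complex.conj_mul']
  have h2 : A ≤ ‖W‖ * ‖X‖ := by
    have h3 := norm_inner_le_norm (𝕜 := ℂ) W X
    rw [h1, Complex.norm_real, Real.norm_of_nonneg hA0] at h3
    exact h3
  have h4 : ‖X‖ ^ 2 ≤ ∑ p ∈ B ×ˢ B, (‖c p.1‖ * ‖c p.2‖) * ‖inner ℂ (V p.2) (V p.1)‖ := by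
    have h5 : ((‖X‖ ^ 2 : ℝ) : ℂ) = ∑ q' ∈ B, ∑ q ∈ B,
        inner ℂ ((starRingEnd ℂ) (c q') • V q') ((starRingEnd ℂ) (c q) • V q) := by
      have h0 : inner ℂ X X = ∑ q' ∈ B, ∑ q ∈ B,
          inner ℂ ((starRingEnd ℂ) (c q') • V q') ((starRingEnd ℂ) (c q) • V q) := by
        rw [hX, sum_inner]
        exact Finset.sum_congr rfl fun i _ => inner_sum _ _ _
      rw [← h0, inner_self_eq_norm_sq_to_K]
      push_cast
      rfl
    have h6 : ‖X‖ ^ 2 = ‖∑ q' ∈ B, ∑ q ∈ B,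
        inner ℂ ((starRingEnd ℂ) (c q') • V q') ((starRingEnd ℂ) (c q) • V q)‖ := by
      rw [← h5, Complex.norm_real, Real.norm_of_nonneg (sq_nonneg _)]
    rw [h6, Finset.sum_product_right]
    refine (norm_sum_le _ _).trans (Finset.sum_le_sum fun q' _ => ?_)
    refine (norm_sum_le _ _).trans (Finset.sum_le_sum fun q _ => le_of_eq ?_)
    rw [inner_smul_left, inner_smul_right, norm_mul, norm_mul, RCLike.norm_conj, RCLike.norm_conj,
      RCLike.norm_conj]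
    ring
  have h7 : ∑ p ∈ B ×ˢ B, (‖c p.1‖ * ‖c p.2‖) * ‖inner ℂ (V p.2) (V p.1)‖ ≤ A * Real.sqrt G := by
    have h8 := Finset.sum_mul_sq_le_sq_mul_sq (B ×ˢ B) (fun p => ‖c p.1‖ * ‖c p.2‖)
      (fun p => ‖inner ℂ (V p.2) (V p.1)‖)
    have h9 : ∑ p ∈ B ×ˢ B, (‖c p.1‖ * ‖c p.2‖) ^ 2 = A * A := by
      rw [Finset.sum_product, hA, Finset.sum_mul_sum]
      exact Finset.sum_congr rfl fun i _ => Finset.sum_congr rfl fun j _ => mul_pow _ _ _
    have h10 : ∑ p ∈ B ×ˢ B, ‖inner ℂ (V p.2) (V p.1)‖ ^ 2 = G := by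
      rw [Finset.sum_product, hG]
    rw [h9, h10] at h8
    have h11 : 0 ≤ ∑ p ∈ B ×ˢ B, (‖c p.1‖ * ‖c p.2‖) * ‖inner ℂ (V p.2) (V p.1)‖ :=
      Finset.sum_nonneg fun p _ =>
        mul_nonneg (mul_nonneg (norm_nonneg _) (norm_nonneg _)) (norm_nonneg _)
    have h12 : (A * Real.sqrt G) ^ 2 = A * A * G := by
      rw [mul_pow, Real.sq_sqrt hG0]; ring
    exact (abs_le_of_sq_le_sq' (h8.trans (le_of_eq h12.symm))
      (mul_nonneg hA0 (Real.sqrt_nonneg _))).2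
  have h13 : A ^ 2 ≤ ‖W‖ ^ 2 * (A * Real.sqrt G) := by
    calc A ^ 2 ≤ (‖W‖ * ‖X‖) ^ 2 := pow_le_pow_left₀ hA0 h2 2
      _ = ‖W‖ ^ 2 * ‖X‖ ^ 2 := mul_pow _ _ _
      _ ≤ ‖W‖ ^ 2 * (A * Real.sqrt G) :=
        mul_le_mul_of_nonneg_left (h4.trans h7) (sq_nonneg _)
  rcases hA0.lt_or_eq with hpos | h0
  · have h14 : A * A ≤ A * (‖W‖ ^ 2 * Real.sqrt G) := by nlinarith
    exact le_of_mul_le_mul_left h14 hpos
  · rw [← h0]
    exact mul_nonneg (sq_nonneg _) (Real.sqrt_nonneg _)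

private theorem t1_mem {Z : Type*} [MeasurableSpace Z] (μ : Measure Z) [IsFiniteMeasure μ]
    {f : Z → ℂ} (hf : BMf f) : MemLp f 2 μ := by
  obtain ⟨C, hC⟩ := hf.bdd
  exact MemLp.of_bound hf.meas.aestronglyMeasurable C (ae_of_all _ hC)

private theorem t1_inner {Z : Type*} [MeasurableSpace Z] (μ : Measure Z)
    {f g : Z → ℂ} (hf : MemLp f 2 μ) (hg : MemLp g 2 μ) :
    inner ℂ (hf.toLp f) (hg.toLp g) = ∫ z, g z * conj (f z) ∂μ := by
  rw [L2.inner_def]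
  refine integral_congr_ae ?_
  filter_upwards [hf.coeFn_toLp, hg.coeFn_toLp] with z h1 h2
  rw [h1, h2, RCLike.inner_apply]

/-- **duality inequality**: with `c_q = ∫ v_q g`:
`∑ |c_q|² = ∫ (∑ conj c_q v_q) g ≤ ‖g‖ ‖∑ conj c_q v_q‖` and
`‖∑ conj c_q v_q‖² = ∑ conj c_q c_q' ∫ v_q conj v_q' ≤ (∑ |c_q|²) (∑ |G_{q q'}|²)^{1/2}`. -/
theorem duality {Z : Type*} [MeasurableSpace Z] (μ : Measure Z) [IsFiniteMeasure μ] {ι : Type*}
    (B : Finset ι) (g : Z → ℂ) (v : ι → Z → ℂ) (hg : BMf g) (hv : ∀ i, BMf (v i)) :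
    ∑ q ∈ B, ‖∫ z, v q z * g z ∂μ‖ ^ 2 ≤
      (∫ z, ‖g z‖ ^ 2 ∂μ) *
        Real.sqrt (∑ q ∈ B, ∑ q' ∈ B, ‖∫ z, v q z * conj (v q' z) ∂μ‖ ^ 2) := by
  have hg' : BMf (fun z => conj (g z)) := by
    refine ⟨Complex.continuous_conj.measurable.comp hg.meas, ?_⟩
    obtain ⟨C, hC⟩ := hg.bdd
    exact ⟨C, fun z => by rw [RCLike.norm_conj]; exact hC z⟩
  have h := t1_hilb B ((t1_mem μ hg').toLp _) (fun q => (t1_mem μ (hv q)).toLp _)
  simp only [t1_inner, Complex.conj_conj] at h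
  have h1 : ‖(t1_mem μ hg').toLp _‖ ^ 2 = ∫ z, ‖g z‖ ^ 2 ∂μ := by
    have h2 : ((‖(t1_mem μ hg').toLp _‖ ^ 2 : ℝ) : ℂ) = ((∫ z, ‖g z‖ ^ 2 ∂μ : ℝ) : ℂ) := by
      have h3 : inner ℂ ((t1_mem μ hg').toLp _) ((t1_mem μ hg').toLp _) =
          ((∫ z, ‖g z‖ ^ 2 ∂μ : ℝ) : ℂ) := by
        rw [t1_inner, ← integral_complex_ofReal]
        refine integral_congr_ae (ae_of_all _ fun z => ?_)
        show conj (g z) * conj (conj (g z)) = ((‖g z‖ ^ 2 : ℝ) : ℂ)
        rw [Complex.conj_conj, Complex.conj_mul', Complex.ofReal_pow]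
      rw [← h3, inner_self_eq_norm_sq_to_K]
      push_cast
      rfl
    exact_mod_cast h2
  rw [h1] at h
  exact h

/- END t1 -/

variable {K : Type*} [CommGroup K] [TopologicalSpace K] [IsTopologicalGroup K] [CompactSpace K]
  [T2Space K] [SecondCountableTopology K] [MeasurableSpace K] [BorelSpace K]
  {u : K} {m : Measure K} [IsProbabilityMeasure m] [m.IsHaarMeasure]
  {Z : Type*} [MeasurableSpace Z] {M : Measure Z} {S : Z ≃ᵐ Z} {y : Z → K} {s l : Z → ℝ}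

/- BEGIN t2 -/

omit [SecondCountableTopology K] [IsTopologicalGroup K] [T2Space K] [CompactSpace K] in
theorem t2_chm (χ : PontryaginDual K) : Measurable fun x : K => (χ x : ℂ) :=
  (continuous_subtype_val.comp (map_continuous χ)).measurable

theorem t2_l (hD : DS u m M S y s l) (z : Z) : ‖(l z : ℂ)‖ = 1 := by
  rcases hD.l1 z with h | h <;> rw [h] <;> simp

theorem t2_lS (hD : DS u m M S y s l) (n : ℕ) : Measurable fun z => (l (S^[n] z) : ℂ) :=
  Complex.measurable_ofReal.comp (hD.lm.comp (S.measurable.iterate n))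

theorem t2_bm (hD : DS u m M S y s l) (χ : PontryaginDual K) (n : ℕ) :
    BMf fun z => (χ (y z) : ℂ) * (l (S^[n] z) : ℂ) := by
  refine ⟨((t2_chm χ).comp hD.ym).mul (t2_lS hD n), 1, fun z => ?_⟩
  rw [norm_mul, t2_l hD, Circle.norm_coe, mul_one]

theorem t2_int {μ : Measure Z} [IsFiniteMeasure μ] {f : Z → ℂ} (hf : BMf f) : Integrable f μ := by
  obtain ⟨C, hC⟩ := hf.bdd
  exact Integrable.of_bound hf.meas.aestronglyMeasurable C (Filter.Eventually.of_forall hC)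

/-- orthogonality -/
theorem t2_orth (hD : DS u m M S y s l) {α β : ℝ} (hαβ : α ≤ β) (χ χ' : PontryaginDual K)
    [Decidable (χ = χ')] :
    ∫ z in s ⁻¹' Set.Ioc α β, (χ (y z) : ℂ) * conj (χ' (y z) : ℂ) ∂M =
      if χ = χ' then ((β - α : ℝ) : ℂ) else 0 := by
  have h1 : ∀ x : K, (χ x : ℂ) * conj (χ' x : ℂ) = ((χ * χ'⁻¹ : PontryaginDual K) x : ℂ) := by
    intro x
    have h2 : (χ * χ'⁻¹ : PontryaginDual K) x = χ x * (χ' x)⁻¹ := rfl
    rw [h2, Circle.coe_mul, Circle.coe_inv_eq_conj]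
  have h3 : ∫ z in s ⁻¹' Set.Ioc α β, (χ (y z) : ℂ) * conj (χ' (y z) : ℂ) ∂M
      = ∫ x, ((χ * χ'⁻¹ : PontryaginDual K) x : ℂ) ∂((M.restrict (s ⁻¹' Set.Ioc α β)).map y) := by
    rw [integral_map hD.ym.aemeasurable (t2_chm _).aestronglyMeasurable]
    exact integral_congr_ae (Filter.Eventually.of_forall fun z => h1 (y z))
  rw [h3, map_y hD hαβ, integral_smul_measure, ENNReal.toReal_ofReal (by linarith)]
  split_ifs with h
  · subst h
    rw [mul_inv_cancel]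
    have h4 : ∀ x : K, (((1 : PontryaginDual K) x : Circle) : ℂ) = 1 := fun x => rfl
    simp only [h4, integral_const, probReal_univ, one_smul]
    rw [Complex.real_smul, mul_one]
  · rw [Pool.Agent.S7.chr_int (χ * χ'⁻¹) (fun h5 => h (mul_inv_eq_one.mp h5)), smul_zero]

/-- Bessel: the functions `χ (y z)`, `χ` in a finite set of characters, are orthogonal in
`L²(M, s ∈ J)`, with square norm `|J|` -/
theorem bessel_chr (hD : DS u m M S y s l) {α β : ℝ} (hαβ : α ≤ β)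
    (B : Finset (PontryaginDual K)) (n : ℕ) :
    ∑ χ ∈ B, ‖cor M S y s l α β (fun x => (χ x : ℂ)) n‖ ^ 2 ≤ (β - α) ^ 2 := by
  classical
  haveI := fin_J hD α β
  set μ := M.restrict (s ⁻¹' Set.Ioc α β) with hμ
  set c : PontryaginDual K → ℂ := fun χ => cor M S y s l α β (fun x => (χ x : ℂ)) n with hc
  set g : Z → ℂ := fun z => ((l z * l (S^[n] z) : ℝ) : ℂ) with hg
  have hg1 : ∀ z, ‖g z‖ = 1 := by
    intro z
    simp only [hg]
    push_cast
    rw [norm_mul, t2_l hD, t2_l hD, mul_one]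
  have hgm : Measurable g :=
    Complex.measurable_ofReal.comp (hD.lm.mul (hD.lm.comp (S.measurable.iterate n)))
  set T : ℝ := ∑ χ ∈ B, ‖c χ‖ ^ 2 with hT
  set F : Z → ℂ := fun z => ∑ χ ∈ B, conj (c χ) * (χ (y z) : ℂ) with hF
  have hchi : ∀ χ : PontryaginDual K, Measurable fun z => (χ (y z) : ℂ) :=
    fun χ => (t2_chm χ).comp hD.ym
  have hFm : Measurable F := Finset.measurable_sum _ fun χ _ => (hchi χ).const_mul _
  have hFb : ∀ z, ‖F z‖ ≤ ∑ χ ∈ B, ‖c χ‖ := by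
    intro z
    refine le_trans (norm_sum_le _ _) (Finset.sum_le_sum fun χ _ => ?_)
    rw [norm_mul, Circle.norm_coe, mul_one, RCLike.norm_conj]
  have hFB : BMf F := ⟨hFm, _, hFb⟩
  -- first identity
  have h1 : ∫ z, F z * g z ∂μ = (T : ℂ) := by
    have h2 : ∀ z, F z * g z = ∑ χ ∈ B, conj (c χ) * ((χ (y z) : ℂ) * g z) := by
      intro z
      simp only [hF, Finset.sum_mul, mul_assoc]
    simp only [h2]
    rw [integral_finsetSum]
    · rw [hT]
      push_cast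
      apply Finset.sum_congr rfl
      intro χ _
      rw [integral_const_mul]
      have h3 : ∫ z, (χ (y z) : ℂ) * g z ∂μ = c χ := rfl
      rw [h3, mul_comm, Complex.mul_conj, Complex.normSq_eq_norm_sq]
      push_cast
      rfl
    · intro χ _
      have h4 : BMf fun z => (χ (y z) : ℂ) * g z :=
        ⟨(hchi χ).mul hgm, 1, fun z => by rw [norm_mul, hg1, Circle.norm_coe, mul_one]⟩
      exact (t2_int h4).const_mul _
  -- second identity
  have h5 : ∫ z, F z * conj (F z) ∂μ = ((T * (β - α) : ℝ) : ℂ) := by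
    have h6 : ∀ z, F z * conj (F z) = ∑ χ ∈ B, ∑ χ' ∈ B,
        (conj (c χ) * c χ') * ((χ (y z) : ℂ) * conj (χ' (y z) : ℂ)) := by
      intro z
      simp only [hF, map_sum, Finset.sum_mul_sum]
      apply Finset.sum_congr rfl
      intro χ _
      apply Finset.sum_congr rfl
      intro χ' _
      rw [map_mul, Complex.conj_conj]
      ring
    have h7 : ∀ χ χ' : PontryaginDual K, Integrable
        (fun z => (χ (y z) : ℂ) * conj (χ' (y z) : ℂ)) μ := by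
      intro χ χ'
      have h8 : BMf fun z => (χ (y z) : ℂ) * conj (χ' (y z) : ℂ) := by
        refine ⟨(hchi χ).mul (Complex.continuous_conj.measurable.comp (hchi χ')), 1, fun z => ?_⟩
        rw [norm_mul, RCLike.norm_conj, Circle.norm_coe, Circle.norm_coe, mul_one]
      exact t2_int h8
    simp only [h6]
    rw [integral_finsetSum _ fun χ _ => integrable_finsetSum _ fun χ' _ => (h7 χ χ').const_mul _]
    rw [hT, Finset.sum_mul]
    push_cast
    apply Finset.sum_congr rfl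
    intro χ hχ
    rw [integral_finsetSum _ fun χ' _ => (h7 χ χ').const_mul _]
    have h9 : ∀ χ' ∈ B, ∫ z, (conj (c χ) * c χ') * ((χ (y z) : ℂ) * conj (χ' (y z) : ℂ)) ∂μ =
        if χ' = χ then (conj (c χ) * c χ) * ((β : ℂ) - α) else 0 := by
      intro χ' _
      rw [integral_const_mul, hμ, t2_orth hD hαβ]
      by_cases h10 : χ' = χ
      · subst h10
        rw [if_pos rfl, if_pos rfl]
        push_cast
        rfl
      · rw [if_neg h10, if_neg (Ne.symm h10), mul_zero]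
    rw [Finset.sum_congr rfl h9, Finset.sum_ite_eq', if_pos hχ]
    congr 1
    rw [mul_comm, Complex.mul_conj, Complex.normSq_eq_norm_sq]
    push_cast
    rfl
  have h11 : ∫ z, ‖F z‖ ^ 2 ∂μ = T * (β - α) := by
    have h12 : ∀ z, F z * conj (F z) = ((‖F z‖ ^ 2 : ℝ) : ℂ) := by
      intro z
      rw [Complex.mul_conj, Complex.normSq_eq_norm_sq]
    simp only [h12] at h5
    rw [integral_complex_ofReal] at h5
    exact_mod_cast h5
  rcases eq_or_lt_of_le hαβ with h | h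
  · have h13 : T = 0 := by
      rw [hT]
      apply Finset.sum_eq_zero
      intro χ _
      have h14 : c χ = 0 := by
        simp only [hc, cor]
        rw [h, Set.Ioc_self, Set.preimage_empty, Measure.restrict_empty, integral_zero_measure]
      rw [h14, norm_zero]
      norm_num
    show T ≤ _
    rw [h13]
    positivity
  · have hd : 0 < β - α := by linarith
    have h15 : T ≤ ∫ z, ((β - α)⁻¹ / 2 * ‖F z‖ ^ 2 + (β - α) / 2) ∂μ := by
      have h16 : T = ∫ z, (F z * g z).re ∂μ := by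
        have h17 : BMf fun z => F z * g z := by
          refine ⟨hFm.mul hgm, ∑ χ ∈ B, ‖c χ‖, fun z => ?_⟩
          rw [norm_mul, hg1, mul_one]
          exact hFb z
        have h18 := integral_re (t2_int (μ := μ) h17)
        have h19 : (∫ z, F z * g z ∂μ).re = T := by
          rw [h1]
          exact Complex.ofReal_re T
        rw [← h19]
        exact h18.symm
      rw [h16]
      have h20 : BMf fun z => F z * g z := by
        refine ⟨hFm.mul hgm, ∑ χ ∈ B, ‖c χ‖, fun z => ?_⟩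
        rw [norm_mul, hg1, mul_one]
        exact hFb z
      have h21 : Integrable (fun z => ‖F z‖ ^ 2) μ := by
        refine Integrable.of_bound (hFm.norm.pow_const 2).aestronglyMeasurable
          ((∑ χ ∈ B, ‖c χ‖) ^ 2) (Filter.Eventually.of_forall fun z => ?_)
        rw [norm_pow, norm_norm]
        exact pow_le_pow_left₀ (norm_nonneg _) (hFb z) 2
      apply integral_mono (t2_int (μ := μ) h20).re ((h21.const_mul _).add (integrable_const _))
      intro z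
      have h22 : (F z * g z).re ≤ ‖F z‖ := by
        refine le_trans (Complex.re_le_norm _) ?_
        rw [norm_mul, hg1, mul_one]
      have h23 : ‖F z‖ ≤ (β - α)⁻¹ / 2 * ‖F z‖ ^ 2 + (β - α) / 2 := by
        have h24 : (β - α)⁻¹ / 2 * ‖F z‖ ^ 2 + (β - α) / 2 - ‖F z‖
            = (β - α)⁻¹ / 2 * (‖F z‖ - (β - α)) ^ 2 := by
          field_simp
          ring
        have h25 : 0 ≤ (β - α)⁻¹ / 2 * (‖F z‖ - (β - α)) ^ 2 := by positivity
        linarith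
      exact le_trans h22 h23
    have h26 : ∫ z, ((β - α)⁻¹ / 2 * ‖F z‖ ^ 2 + (β - α) / 2) ∂μ = T / 2 + (β - α) ^ 2 / 2 := by
      have h21 : Integrable (fun z => ‖F z‖ ^ 2) μ := by
        refine Integrable.of_bound (hFm.norm.pow_const 2).aestronglyMeasurable
          ((∑ χ ∈ B, ‖c χ‖) ^ 2) (Filter.Eventually.of_forall fun z => ?_)
        rw [norm_pow, norm_norm]
        exact pow_le_pow_left₀ (norm_nonneg _) (hFb z) 2
      rw [integral_add (h21.const_mul _) (integrable_const _), integral_const_mul, h11,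
        integral_const, smul_eq_mul]
      have h27 : μ.real Set.univ = β - α := by
        rw [hμ, measureReal_restrict_apply_univ, meas_J hD hαβ]
      rw [h27]
      field_simp
    show T ≤ _
    linarith

/-- the Gram matrix: `∫_J ψ(y) l_a conj(ψ'(y) l_b)` for `a ≤ b` is, up to a factor of modulus one,
`∫_J (ψ ψ'⁻¹)(y) l l_{b - a}` (invariance under `S^a`) -/
theorem gram_eq (hD : DS u m M S y s l) (α β : ℝ) (ψ ψ' : PontryaginDual K) {a b : ℕ}
    (hab : a ≤ b) :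
    ‖∫ z in s ⁻¹' Set.Ioc α β, ((ψ (y z) : ℂ) * (l (S^[a] z) : ℂ)) *
        conj ((ψ' (y z) : ℂ) * (l (S^[b] z) : ℂ)) ∂M‖ =
      ‖cor M S y s l α β (fun x => ((ψ * ψ'⁻¹ : PontryaginDual K) x : ℂ)) (b - a)‖ := by
  set θ : PontryaginDual K := ψ * ψ'⁻¹ with hθ
  have hθ1 : ∀ x : K, (ψ x : ℂ) * conj (ψ' x : ℂ) = (θ x : ℂ) := by
    intro x
    have h2 : θ x = ψ x * (ψ' x)⁻¹ := rfl
    rw [h2, Circle.coe_mul, Circle.coe_inv_eq_conj]
  have h1 : ∀ z, ((ψ (y z) : ℂ) * (l (S^[a] z) : ℂ)) * conj ((ψ' (y z) : ℂ) * (l (S^[b] z) : ℂ))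
      = conj (θ (u ^ a) : ℂ) * ((θ (y (S^[a] z)) : ℂ) *
        ((l (S^[a] z) * l (S^[b - a] (S^[a] z)) : ℝ) : ℂ)) := by
    intro z
    have h3 : S^[b - a] (S^[a] z) = S^[b] z := by
      rw [← Function.iterate_add_apply, Nat.sub_add_cancel hab]
    rw [h3, y_iter hD, map_mul θ, Circle.coe_mul, map_mul (starRingEnd ℂ), Complex.conj_ofReal,
      ← hθ1 (y z)]
    have h4 : conj (θ (u ^ a) : ℂ) * (θ (u ^ a) : ℂ) = 1 := by
      rw [mul_comm, Complex.mul_conj, Circle.normSq_coe]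
      norm_num
    push_cast
    linear_combination (-(ψ (y z) : ℂ) * conj (ψ' (y z) : ℂ) * (l (S^[a] z) : ℂ) *
      (l (S^[b] z) : ℂ)) * h4
  simp only [h1]
  rw [integral_const_mul, norm_mul, RCLike.norm_conj, Circle.norm_coe, one_mul,
    int_comp_S hD α β a (fun z => (θ (y z) : ℂ) * ((l z * l (S^[b - a] z) : ℝ) : ℂ))]
  rfl

theorem gram_symm (hD : DS u m M S y s l) (α β : ℝ) (ψ ψ' : PontryaginDual K) (a b : ℕ) :
    ‖∫ z in s ⁻¹' Set.Ioc α β, ((ψ (y z) : ℂ) * (l (S^[a] z) : ℂ)) *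
        conj ((ψ' (y z) : ℂ) * (l (S^[b] z) : ℂ)) ∂M‖ =
      ‖∫ z in s ⁻¹' Set.Ioc α β, ((ψ' (y z) : ℂ) * (l (S^[b] z) : ℂ)) *
        conj ((ψ (y z) : ℂ) * (l (S^[a] z) : ℂ)) ∂M‖ := by
  rw [← RCLike.norm_conj, ← integral_conj]
  congr 1
  apply integral_congr_ae
  refine Filter.Eventually.of_forall fun z => ?_
  show conj (((ψ (y z) : ℂ) * (l (S^[a] z) : ℂ)) * conj ((ψ' (y z) : ℂ) * (l (S^[b] z) : ℂ))) = _
  rw [map_mul, Complex.conj_conj, mul_comm]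

/-- `duality` for `g = l 1_J`, `v_q = ψ_q(y) l(S^{qe} z)` -/
theorem duality_blk (hD : DS u m M S y s l) {α β : ℝ} (hαβ : α ≤ β) (e : ℕ)
    (ψ : ℕ → PontryaginDual K) (B : Finset ℕ) :
    ∑ q ∈ B, ‖cor M S y s l α β (fun x => (ψ q x : ℂ)) (q * e)‖ ^ 2 ≤
      (β - α) * Real.sqrt (∑ q ∈ B, ∑ q' ∈ B,
        ‖∫ z in s ⁻¹' Set.Ioc α β, ((ψ q (y z) : ℂ) * (l (S^[q * e] z) : ℂ)) *
          conj ((ψ q' (y z) : ℂ) * (l (S^[q' * e] z) : ℂ)) ∂M‖ ^ 2) := by
  have hfin := fin_J hD α β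
  have hg : BMf fun z => (l z : ℂ) :=
    ⟨Complex.measurable_ofReal.comp hD.lm, 1, fun z => (t2_l hD z).le⟩
  have h := duality (M.restrict (s ⁻¹' Set.Ioc α β)) B (fun z => (l z : ℂ))
    (fun q z => (ψ q (y z) : ℂ) * (l (S^[q * e] z) : ℂ)) hg (fun q => t2_bm hD (ψ q) (q * e))
  have h1 : ∫ z in s ⁻¹' Set.Ioc α β, ‖(l z : ℂ)‖ ^ 2 ∂M = β - α := by
    simp only [t2_l hD, one_pow, integral_const, smul_eq_mul, mul_one]
    rw [measureReal_restrict_apply_univ, meas_J hD hαβ]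
  rw [h1] at h
  have h2 : ∀ q, ∫ z in s ⁻¹' Set.Ioc α β, (ψ q (y z) : ℂ) * (l (S^[q * e] z) : ℂ) * (l z : ℂ) ∂M
      = cor M S y s l α β (fun x => (ψ q x : ℂ)) (q * e) := by
    intro q
    unfold cor
    apply integral_congr_ae
    refine Filter.Eventually.of_forall fun z => ?_
    show (ψ q (y z) : ℂ) * (l (S^[q * e] z) : ℂ) * (l z : ℂ) =
      (ψ q (y z) : ℂ) * ((l z * l (S^[q * e] z) : ℝ) : ℂ)
    push_cast
    ring
  simp only [h2] at h
  exact h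

/- END t2 -/

end Pool.Agent.S7d
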