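import Pool.Agent.S7d.T1
import Pool.Agent.S7d.Num

set_option autoImplicit false

namespace Pool.Agent.S7d

open MeasureTheory Filter Topology
open scoped ENNReal ComplexConjugate
open Pool.Agent.Sar (blk pib)
open Pool.Agent.S7 (KD DS Kq rt BMf)

variable {K : Type*} [CommGroup K] [TopologicalSpace K] [IsTopologicalGroup K] [CompactSpace K]
  [T2Space K] [SecondCountableTopology K] [MeasurableSpace K] [BorelSpace K]
  {u : K} {m : Measure K} [IsProbabilityMeasure m] [m.IsHaarMeasure]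
  {Z : Type*} [MeasurableSpace Z] {M : Measure Z} {S : Z ≃ᵐ Z} {y : Z → K} {s l : Z → ℝ}

/- BEGIN t3: the case in which `χ` is not torsion -/


theorem t3_card (k : ℕ) : (pib k : ℝ) ≤ 2 ^ k := by
  unfold pib
  have h1 : (blk k).card ≤ (Finset.Ico (2 ^ k) (2 ^ (k + 1))).card := by
    unfold blk
    exact Finset.card_filter_le _ _
  rw [Nat.card_Ico, pow_succ] at h1
  have h2 : (blk k).card ≤ 2 ^ k := by omega
  exact_mod_cast h2

/-- for fixed `h ≥ 1` the characters `ψ_q ψ_{q+h}⁻¹`, `q, q + h ∈ blk k`, are distinct, so by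
`bessel_chr` and `gram_eq` the squares of the Gram entries with `q' - q = h` sum up to at most
`(β - α)²`; with the diagonal: total `≤ (pib k + 2 · 2^k) (β - α)²` -/
theorem gram_nontors (hD : DS u m M S y s l) {α β : ℝ} (hαβ : α ≤ β) (e q0 : ℕ)
    (ψ : ℕ → PontryaginDual K)
    (hψ : ∀ q q' h : ℕ, 1 ≤ h → q.Prime → q'.Prime → (q + h).Prime → (q' + h).Prime → q0 ≤ q →
      q0 ≤ q' → (ψ q)⁻¹ * ψ (q + h) = (ψ q')⁻¹ * ψ (q' + h) → q = q') {k : ℕ}
    (hk : q0 ≤ 2 ^ k) :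
    ∑ q ∈ blk k, ∑ q' ∈ blk k,
        ‖∫ z in s ⁻¹' Set.Ioc α β, ((ψ q (y z) : ℂ) * (l (S^[q * e] z) : ℂ)) *
          conj ((ψ q' (y z) : ℂ) * (l (S^[q' * e] z) : ℂ)) ∂M‖ ^ 2 ≤
      (pib k + 2 * 2 ^ k) * (β - α) ^ 2 := by
  classical
  set G : ℕ → ℕ → ℝ := fun q q' =>
    ‖∫ z in s ⁻¹' Set.Ioc α β, ((ψ q (y z) : ℂ) * (l (S^[q * e] z) : ℂ)) *
          conj ((ψ q' (y z) : ℂ) * (l (S^[q' * e] z) : ℂ)) ∂M‖ ^ 2 with hG
  have hGnn : ∀ q q', 0 ≤ G q q' := fun q q' => by positivity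
  have hsym : ∀ q q', G q q' = G q' q := by
    intro q q'
    simp only [hG]
    rw [gram_symm hD]
  have hdiag : ∀ q, G q q ≤ (β - α) ^ 2 := by
    intro q
    simp only [hG]
    rw [gram_eq hD α β (ψ q) (ψ q) (le_refl (q * e)), Nat.sub_self]
    have h1 : BMf fun x : K => (((ψ q * (ψ q)⁻¹ : PontryaginDual K) x : Circle) : ℂ) :=
      ⟨(continuous_subtype_val.comp (map_continuous _)).measurable, 1, fun x =>
        (Circle.norm_coe _).le⟩
    have h2 := norm_cor_le hD hαβ h1 0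
    have h3 : ∫ x, ‖(((ψ q * (ψ q)⁻¹ : PontryaginDual K) x : Circle) : ℂ)‖ ∂m = 1 := by
      simp only [Circle.norm_coe, integral_const, probReal_univ, smul_eq_mul, mul_one]
    rw [h3, mul_one] at h2
    exact pow_le_pow_left₀ (norm_nonneg _) h2 2
  -- the upper triangle
  have hup : ∑ q ∈ blk k, ∑ q' ∈ (blk k).filter (fun q' => q < q'), G q q' ≤
      2 ^ k * (β - α) ^ 2 := by
    have h1 : ∀ q ∈ blk k, ∑ q' ∈ (blk k).filter (fun q' => q < q'), G q q' =
        ∑ h ∈ Finset.Ico 1 (2 ^ k), if q + h ∈ blk k then G q (q + h) else 0 := by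
      intro q hq
      have hq2 := (Finset.mem_Ico.mp (Finset.mem_filter.mp hq).1)
      rw [← Finset.sum_filter]
      refine Finset.sum_nbij' (fun q' => q' - q) (fun h => q + h) ?_ ?_ ?_ ?_ ?_
      · intro q' hq'
        rw [Finset.mem_filter] at hq'
        have h3 := (Finset.mem_Ico.mp (Finset.mem_filter.mp hq'.1).1)
        rw [Finset.mem_filter, Finset.mem_Ico]
        rw [pow_succ] at h3
        refine ⟨⟨by omega, by omega⟩, ?_⟩
        have h4 : q + (q' - q) = q' := by omega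
        rw [h4]
        exact hq'.1
      · intro h hh
        rw [Finset.mem_filter, Finset.mem_Ico] at hh
        rw [Finset.mem_filter]
        exact ⟨hh.2, by omega⟩
      · intro q' hq'
        rw [Finset.mem_filter] at hq'
        show q + (q' - q) = q'
        omega
      · intro h _
        show q + h - q = h
        omega
      · intro q' hq'
        rw [Finset.mem_filter] at hq'
        have h4 : q + (q' - q) = q' := by omega
        rw [h4]
    rw [Finset.sum_congr rfl h1, Finset.sum_comm]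
    have h2 : ∀ h ∈ Finset.Ico 1 (2 ^ k),
        ∑ q ∈ blk k, (if q + h ∈ blk k then G q (q + h) else 0) ≤ (β - α) ^ 2 := by
      intro h hh
      rw [Finset.mem_Ico] at hh
      rw [← Finset.sum_filter]
      set B := (blk k).filter fun q => q + h ∈ blk k with hB
      have h3 : ∀ q ∈ B, G q (q + h) =
          ‖cor M S y s l α β (fun x => ((ψ q * (ψ (q + h))⁻¹ : PontryaginDual K) x : ℂ))
            (h * e)‖ ^ 2 := by
        intro q _
        simp only [hG]
        rw [gram_eq hD α β (ψ q) (ψ (q + h)) (Nat.mul_le_mul_right e (Nat.le_add_right q h))]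
        have h4 : (q + h) * e - q * e = h * e := by
          rw [add_mul]
          omega
        rw [h4]
      have hinj : Set.InjOn (fun q => ψ q * (ψ (q + h))⁻¹) (↑B : Set ℕ) := by
        intro q hq q' hq' heq
        rw [Finset.mem_coe, hB, Finset.mem_filter] at hq hq'
        have hp : ∀ r ∈ blk k, r.Prime ∧ q0 ≤ r := by
          intro r hr
          refine ⟨(Finset.mem_filter.mp hr).2, ?_⟩
          exact le_trans hk (Finset.mem_Ico.mp (Finset.mem_filter.mp hr).1).1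
        apply hψ q q' h hh.1 (hp q hq.1).1 (hp q' hq'.1).1 (hp _ hq.2).1 (hp _ hq'.2).1
          (hp q hq.1).2 (hp q' hq'.1).2
        have heq2 : ψ q * (ψ (q + h))⁻¹ = ψ q' * (ψ (q' + h))⁻¹ := heq
        have h5 := congrArg (fun x => x⁻¹) heq2
        simp only [mul_inv_rev, inv_inv] at h5
        rw [mul_comm, h5, mul_comm]
      rw [Finset.sum_congr rfl h3]
      have h6 := bessel_chr hD hαβ (B.image fun q => ψ q * (ψ (q + h))⁻¹) (h * e)
      rw [Finset.sum_image hinj] at h6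
      exact h6
    refine le_trans (Finset.sum_le_sum h2) ?_
    rw [Finset.sum_const, Nat.card_Ico, nsmul_eq_mul]
    apply mul_le_mul_of_nonneg_right _ (by positivity)
    have h7 : ((2 ^ k - 1 : ℕ) : ℝ) ≤ ((2 ^ k : ℕ) : ℝ) := by
      exact_mod_cast Nat.sub_le _ _
    refine le_trans h7 ?_
    push_cast
    exact le_refl _
  have hlow : ∑ q ∈ blk k, ∑ q' ∈ (blk k).filter (fun q' => q' < q), G q q' ≤
      2 ^ k * (β - α) ^ 2 := by
    have h1 : ∑ q ∈ blk k, ∑ q' ∈ (blk k).filter (fun q' => q' < q), G q q' =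
        ∑ q ∈ blk k, ∑ q' ∈ (blk k).filter (fun q' => q < q'), G q q' := by
      simp only [Finset.sum_filter]
      rw [Finset.sum_comm]
      apply Finset.sum_congr rfl
      intro q _
      apply Finset.sum_congr rfl
      intro q' _
      rw [hsym q q']
    rw [h1]
    exact hup
  have hsplit : ∀ q ∈ blk k, ∑ q' ∈ blk k, G q q' = G q q +
      ∑ q' ∈ (blk k).filter (fun q' => q < q'), G q q' +
      ∑ q' ∈ (blk k).filter (fun q' => q' < q), G q q' := by
    intro q hq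
    simp only [Finset.sum_filter]
    have h1 : G q q = ∑ q' ∈ blk k, if q' = q then G q q' else 0 := by
      rw [Finset.sum_ite_eq', if_pos hq]
    rw [h1, ← Finset.sum_add_distrib, ← Finset.sum_add_distrib]
    apply Finset.sum_congr rfl
    intro q' _
    rcases lt_trichotomy q q' with h | h | h
    · rw [if_neg (by omega), if_pos h, if_neg (by omega)]
      ring
    · rw [if_pos h.symm, if_neg (by omega), if_neg (by omega)]
      ring
    · rw [if_neg (by omega), if_neg (by omega), if_pos h]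
      ring
  rw [Finset.sum_congr rfl hsplit, Finset.sum_add_distrib, Finset.sum_add_distrib]
  have hd : ∑ q ∈ blk k, G q q ≤ pib k * (β - α) ^ 2 := by
    refine le_trans (Finset.sum_le_sum fun q _ => hdiag q) ?_
    rw [Finset.sum_const, nsmul_eq_mul]
    exact le_refl _
  linarith

/-- main term, non-torsion case: `duality_blk`, `gram_nontors`, Cauchy - Schwarz and
`pib_low` -/
theorem main_nontors (hD : DS u m M S y s l) {α β : ℝ} (hαβ : α ≤ β) (e q0 : ℕ)
    (ψ : ℕ → PontryaginDual K)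
    (hψ : ∀ q q' h : ℕ, 1 ≤ h → q.Prime → q'.Prime → (q + h).Prime → (q' + h).Prime → q0 ≤ q →
      q0 ≤ q' → (ψ q)⁻¹ * ψ (q + h) = (ψ q')⁻¹ * ψ (q' + h) → q = q') :
    Tendsto (fun k : ℕ => (∑ q ∈ blk k,
      ‖cor M S y s l α β (fun x => (ψ q x : ℂ)) (q * e)‖) / pib k) atTop (𝓝 0) := by
  obtain ⟨c, hc, hlow⟩ := pib_low
  set f : ℕ → ℝ := fun k => (∑ q ∈ blk k,
      ‖cor M S y s l α β (fun x => (ψ q x : ℂ)) (q * e)‖) / pib k with hf
  have hpnn : ∀ k, 0 ≤ pib k := fun k => by unfold pib; positivity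
  have hfnn : ∀ k, 0 ≤ f k := fun k =>
    div_nonneg (Finset.sum_nonneg fun _ _ => norm_nonneg _) (hpnn k)
  have hd : 0 ≤ β - α := by linarith
  -- fourth power bound
  have h4 : ∀ᶠ k : ℕ in atTop, f k ^ 4 ≤ ((β - α) ^ 4 * 3 / c ^ 2) * ((k : ℝ) ^ 2 / 2 ^ k) := by
    have hq0 : ∀ᶠ k : ℕ in atTop, q0 ≤ 2 ^ k :=
      (tendsto_pow_atTop_atTop_of_one_lt (by norm_num : (1 : ℕ) < 2)).eventually_ge_atTop q0
    filter_upwards [hlow, hq0, Filter.eventually_ge_atTop 1] with k hk1 hk2 hk3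
    have hkpos : (0 : ℝ) < k := by exact_mod_cast hk3
    have h2k : (0 : ℝ) < 2 ^ k := by positivity
    have hp : 0 < pib k := lt_of_lt_of_le (by positivity) hk1
    set T : ℝ := ∑ q ∈ blk k, ‖cor M S y s l α β (fun x => (ψ q x : ℂ)) (q * e)‖ with hT
    set Q : ℝ := ∑ q ∈ blk k, ‖cor M S y s l α β (fun x => (ψ q x : ℂ)) (q * e)‖ ^ 2 with hQ
    have hTnn : 0 ≤ T := Finset.sum_nonneg fun _ _ => norm_nonneg _
    have hQnn : 0 ≤ Q := Finset.sum_nonneg fun _ _ => by positivity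
    have hCS : T ^ 2 ≤ pib k * Q := by
      unfold pib
      exact sq_sum_le_card_mul_sum_sq
    have hdu := duality_blk hD hαβ e ψ (blk k)
    have hgr := gram_nontors hD hαβ e q0 ψ hψ hk2
    have hQ2 : Q ^ 2 ≤ (β - α) ^ 4 * (3 * 2 ^ k) := by
      have h5 : Q ≤ (β - α) * Real.sqrt ((pib k + 2 * 2 ^ k) * (β - α) ^ 2) :=
        le_trans hdu (mul_le_mul_of_nonneg_left (Real.sqrt_le_sqrt hgr) hd)
      have h6 : Q ^ 2 ≤ ((β - α) * Real.sqrt ((pib k + 2 * 2 ^ k) * (β - α) ^ 2)) ^ 2 :=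
        pow_le_pow_left₀ hQnn h5 2
      rw [mul_pow, Real.sq_sqrt (by positivity)] at h6
      have h7 := t3_card k
      have h8 : (β - α) ^ 2 * ((pib k + 2 * 2 ^ k) * (β - α) ^ 2) ≤ (β - α) ^ 4 * (3 * 2 ^ k) := by
        have h9 : (β - α) ^ 2 * ((pib k + 2 * 2 ^ k) * (β - α) ^ 2) =
            (β - α) ^ 4 * (pib k + 2 * 2 ^ k) := by ring
        rw [h9]
        apply mul_le_mul_of_nonneg_left _ (by positivity)
        linarith
      exact le_trans h6 h8
    have hT4 : T ^ 4 ≤ pib k ^ 2 * ((β - α) ^ 4 * (3 * 2 ^ k)) := by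
      have h5 : T ^ 4 ≤ (pib k * Q) ^ 2 := by
        have : T ^ 4 = (T ^ 2) ^ 2 := by ring
        rw [this]
        exact pow_le_pow_left₀ (by positivity) hCS 2
      refine le_trans h5 ?_
      rw [mul_pow]
      exact mul_le_mul_of_nonneg_left hQ2 (by positivity)
    have hfk : f k = T / pib k := rfl
    rw [hfk, div_pow, div_le_iff₀ (by positivity)]
    refine le_trans hT4 ?_
    have h10 : c * 2 ^ k ≤ k * pib k := by
      rw [div_le_iff₀ hkpos] at hk1
      linarith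
    have h11 : (c * 2 ^ k) ^ 2 ≤ (k * pib k) ^ 2 := pow_le_pow_left₀ (by positivity) h10 2
    have h12 : (β - α) ^ 4 * 3 / c ^ 2 * ((k : ℝ) ^ 2 / 2 ^ k) * pib k ^ 4 =
        (pib k ^ 2 * ((β - α) ^ 4 * 3 / (c ^ 2 * 2 ^ k))) * (k * pib k) ^ 2 := by
      field_simp
    have h13 : pib k ^ 2 * ((β - α) ^ 4 * (3 * 2 ^ k)) =
        (pib k ^ 2 * ((β - α) ^ 4 * 3 / (c ^ 2 * 2 ^ k))) * (c * 2 ^ k) ^ 2 := by
      field_simp
    rw [h12, h13]
    exact mul_le_mul_of_nonneg_left h11 (by positivity)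
  have hlim : Tendsto (fun k : ℕ => ((β - α) ^ 4 * 3 / c ^ 2) * ((k : ℝ) ^ 2 / 2 ^ k)) atTop
      (𝓝 0) := by
    have h5 := tendsto_pow_const_div_const_pow_of_one_lt 2 (by norm_num : (1 : ℝ) < 2)
    have h6 := h5.const_mul ((β - α) ^ 4 * 3 / c ^ 2)
    rw [mul_zero] at h6
    exact h6
  have h5 : Tendsto (fun k => f k ^ 4) atTop (𝓝 0) :=
    tendsto_of_tendsto_of_tendsto_of_le_of_le' tendsto_const_nhds hlim
      (Filter.Eventually.of_forall fun k => by positivity) h4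
  have h6 : Tendsto (fun k => Real.sqrt (Real.sqrt (f k ^ 4))) atTop (𝓝 (Real.sqrt (Real.sqrt 0))) :=
    (Real.continuous_sqrt.tendsto _).comp ((Real.continuous_sqrt.tendsto _).comp h5)
  rw [Real.sqrt_zero, Real.sqrt_zero] at h6
  refine h6.congr fun k => ?_
  have h7 : f k ^ 4 = (f k ^ 2) ^ 2 := by ring
  rw [h7, Real.sqrt_sq (by positivity), Real.sqrt_sq (hfnn k)]

/- END t3 -/

/- BEGIN t4: the case in which the `ψ_q` take finitely many values -/

omit [TopologicalSpace K] [IsTopologicalGroup K] [CompactSpace K] [T2Space K]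
  [SecondCountableTopology K] [BorelSpace K] [m.IsHaarMeasure] in
/-- the measure of `s ∈ J` -/
private theorem t4_meas (hD : DS u m M S y s l) (α β : ℝ) :
    M (s ⁻¹' Set.Ioc α β) = ENNReal.ofReal (β - α) := by
  have h1 : MeasurableSet (Set.Ioc α β) := measurableSet_Ioc
  have h2 : (M.map (fun z => (y z, s z))) (Set.univ ×ˢ Set.Ioc α β) =
      M (s ⁻¹' Set.Ioc α β) := by
    rw [Measure.map_apply (hD.ym.prodMk hD.sm) (MeasurableSet.univ.prod h1)]
    congr 1
    ext z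
    simp
  rw [← h2, hD.law, Measure.prod_prod, measure_univ, one_mul, Real.volume_Ioc]

omit [TopologicalSpace K] [IsTopologicalGroup K] [CompactSpace K] [T2Space K]
  [SecondCountableTopology K] [BorelSpace K] [m.IsHaarMeasure] in
private theorem t4_fin (hD : DS u m M S y s l) (α β : ℝ) :
    IsFiniteMeasure (M.restrict (s ⁻¹' Set.Ioc α β)) := by
  constructor
  rw [Measure.restrict_apply_univ, t4_meas hD]
  exact ENNReal.ofReal_lt_top

omit [TopologicalSpace K] [IsTopologicalGroup K] [CompactSpace K] [T2Space K]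
  [SecondCountableTopology K] [BorelSpace K] [IsProbabilityMeasure m] [m.IsHaarMeasure] in
private theorem t4_pres (hD : DS u m M S y s l) (α β : ℝ) :
    MeasurePreserving S (M.restrict (s ⁻¹' Set.Ioc α β)) (M.restrict (s ⁻¹' Set.Ioc α β)) := by
  have h1 : MeasurableSet (s ⁻¹' Set.Ioc α β) := hD.sm measurableSet_Ioc
  have h2 := hD.inv.restrict_preimage h1
  have h3 : S ⁻¹' (s ⁻¹' Set.Ioc α β) = s ⁻¹' Set.Ioc α β := by
    ext z
    simp only [Set.mem_preimage, hD.sS]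
  rwa [h3] at h2

omit [TopologicalSpace K] [IsTopologicalGroup K] [CompactSpace K] [T2Space K]
  [SecondCountableTopology K] [BorelSpace K] [IsProbabilityMeasure m] [m.IsHaarMeasure] in
private theorem t4_abs (hD : DS u m M S y s l) (z : Z) : |l z| = 1 := by
  rcases hD.l1 z with h | h <;> rw [h] <;> simp

/-- `kvn_real` for `M` restricted to `s ∈ J` and `DS.atom` -/
theorem kvn_DS (hD : DS u m M S y s l) (α β : ℝ) :
    Tendsto (fun P : ℕ => (∑ n ∈ Finset.range P,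
      (∫ z in s ⁻¹' Set.Ioc α β, l z * l (S^[n] z) ∂M) ^ 2) / P) atTop (𝓝 0) := by
  have := t4_fin hD α β
  have h := kvn_real (M.restrict (s ⁻¹' Set.Ioc α β)) S (t4_pres hD α β) l hD.lm 1
    (fun z => (t4_abs hD z).le) (fun w hw => by
      have h1 := hD.atom ⟨w, mem_sphere_zero_iff_norm.2 hw⟩ α β
      exact h1)
  simp only [div_eq_inv_mul]
  exact h

/-- the correlations as a function on the integers -/
private noncomputable def t4_rho {Z : Type*} [MeasurableSpace Z] (M : Measure Z) (S : Z ≃ᵐ Z)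
    (s l : Z → ℝ) (α β : ℝ) (n : ℤ) : ℝ :=
  ∫ z in s ⁻¹' Set.Ioc α β, l z * l (S^[n.natAbs] z) ∂M

private theorem t4_bd (hD : DS u m M S y s l) (α β : ℝ) (n : ℤ) :
    |t4_rho M S s l α β n| ≤ (M (s ⁻¹' Set.Ioc α β)).toReal := by
  have := t4_fin hD α β
  unfold t4_rho
  rw [← Real.norm_eq_abs]
  have h := norm_integral_le_of_norm_le_const (μ := M.restrict (s ⁻¹' Set.Ioc α β))
    (f := fun z => l z * l (S^[n.natAbs] z)) (C := 1)
    (Filter.Eventually.of_forall fun z => by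
      rw [norm_mul, Real.norm_eq_abs, Real.norm_eq_abs, t4_abs hD, t4_abs hD, one_mul])
  rw [one_mul, measureReal_restrict_apply MeasurableSet.univ, Set.univ_inter] at h
  exact h

private theorem t4_e3 (hD : DS u m M S y s l) (α β : ℝ) {e : ℕ} (he : 1 ≤ e) :
    Tendsto (fun k : ℕ => (∑ q ∈ blk k, ∑ q' ∈ blk k,
      t4_rho M S s l α β (((q' : ℤ) - (q : ℤ)) * e) ^ 2) / pib k ^ 2) atTop (𝓝 0) := by
  refine E3_use (t4_rho M S s l α β) _ (t4_bd hD α β) (fun k => ?_) ?_ e he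
  · unfold t4_rho
    rw [Int.natAbs_neg]
  · have h := kvn_DS hD α β
    have e1 : ∀ n : ℕ, t4_rho M S s l α β (n : ℤ) =
        ∫ z in s ⁻¹' Set.Ioc α β, l z * l (S^[n] z) ∂M := by
      intro n
      unfold t4_rho
      rw [Int.natAbs_natCast]
    simp only [e1]
    exact h

private theorem t4_one (α β : ℝ) (ψ : PontryaginDual K) (n : ℕ) :
    ‖cor M S y s l α β (fun x => ((ψ * ψ⁻¹ : PontryaginDual K) x : ℂ)) n‖ =
      |∫ z in s ⁻¹' Set.Ioc α β, l z * l (S^[n] z) ∂M| := by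
  have h1 : ∀ x : K, (((ψ * ψ⁻¹ : PontryaginDual K) x : Circle) : ℂ) = 1 := by
    intro x
    rw [mul_inv_cancel]
    rfl
  have h2 : ∫ z in s ⁻¹' Set.Ioc α β, ((l z * l (S^[n] z) : ℝ) : ℂ) ∂M =
      ((∫ z in s ⁻¹' Set.Ioc α β, l z * l (S^[n] z) ∂M : ℝ) : ℂ) := integral_ofReal
  unfold cor
  simp only [h1, one_mul]
  rw [h2, Complex.norm_real, Real.norm_eq_abs]

private theorem t4_gram (hD : DS u m M S y s l) (α β : ℝ) (ψ : PontryaginDual K)
    (q q' e : ℕ) :
    ‖∫ z in s ⁻¹' Set.Ioc α β, ((ψ (y z) : ℂ) * (l (S^[q * e] z) : ℂ)) *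
        conj ((ψ (y z) : ℂ) * (l (S^[q' * e] z) : ℂ)) ∂M‖ ^ 2 =
      t4_rho M S s l α β (((q' : ℤ) - (q : ℤ)) * e) ^ 2 := by
  rcases le_total q q' with h | h
  · rw [gram_eq hD α β ψ ψ (Nat.mul_le_mul_right e h), t4_one, sq_abs]
    unfold t4_rho
    have e1 : ((((q' : ℤ) - (q : ℤ)) * e).natAbs) = q' * e - q * e := by
      rw [← Nat.sub_mul, Int.natAbs_mul, Int.natAbs_natCast]
      congr 1
      omega
    rw [e1]
  · rw [gram_symm hD α β ψ ψ (q * e) (q' * e),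
      gram_eq hD α β ψ ψ (Nat.mul_le_mul_right e h), t4_one, sq_abs]
    unfold t4_rho
    have e1 : ((((q' : ℤ) - (q : ℤ)) * e).natAbs) = q * e - q' * e := by
      rw [← Nat.sub_mul, Int.natAbs_mul, Int.natAbs_natCast]
      congr 1
      omega
    rw [e1]

/-- one value -/
private theorem t4_val (hD : DS u m M S y s l) {α β : ℝ} (hαβ : α ≤ β) (e : ℕ)
    (ψ : ℕ → PontryaginDual K) (ψ₀ : PontryaginDual K) (k : ℕ) (B : Finset ℕ) (hB : B ⊆ blk k)
    (hψ : ∀ q ∈ B, ψ q = ψ₀) :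
    (∑ q ∈ B, ‖cor M S y s l α β (fun x => (ψ q x : ℂ)) (q * e)‖) / pib k ≤
      Real.sqrt ((β - α) * Real.sqrt ((∑ q ∈ blk k, ∑ q' ∈ blk k,
        t4_rho M S s l α β (((q' : ℤ) - (q : ℤ)) * e) ^ 2) / pib k ^ 2)) := by
  have hp0 : 0 ≤ pib k := by unfold pib; positivity
  rcases hp0.eq_or_lt with hp | hp
  · rw [← hp, div_zero]
    exact Real.sqrt_nonneg _
  apply Real.le_sqrt_of_sq_le
  set R : ℝ := ∑ q ∈ blk k, ∑ q' ∈ blk k,
        t4_rho M S s l α β (((q' : ℤ) - (q : ℤ)) * e) ^ 2 with hR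
  have h1 := duality_blk hD hαβ e ψ B
  have h2 : ∑ q ∈ B, ∑ q' ∈ B,
        ‖∫ z in s ⁻¹' Set.Ioc α β, ((ψ q (y z) : ℂ) * (l (S^[q * e] z) : ℂ)) *
          conj ((ψ q' (y z) : ℂ) * (l (S^[q' * e] z) : ℂ)) ∂M‖ ^ 2 ≤ R := by
    have h3 : ∑ q ∈ B, ∑ q' ∈ B,
        ‖∫ z in s ⁻¹' Set.Ioc α β, ((ψ q (y z) : ℂ) * (l (S^[q * e] z) : ℂ)) *
          conj ((ψ q' (y z) : ℂ) * (l (S^[q' * e] z) : ℂ)) ∂M‖ ^ 2 =
        ∑ q ∈ B, ∑ q' ∈ B, t4_rho M S s l α β (((q' : ℤ) - (q : ℤ)) * e) ^ 2 := by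
      refine Finset.sum_congr rfl fun q hq => Finset.sum_congr rfl fun q' hq' => ?_
      rw [hψ q hq, hψ q' hq', t4_gram hD]
    rw [h3, hR]
    calc ∑ q ∈ B, ∑ q' ∈ B, t4_rho M S s l α β (((q' : ℤ) - (q : ℤ)) * e) ^ 2
        ≤ ∑ q ∈ B, ∑ q' ∈ blk k, t4_rho M S s l α β (((q' : ℤ) - (q : ℤ)) * e) ^ 2 :=
          Finset.sum_le_sum fun q _ =>
            Finset.sum_le_sum_of_subset_of_nonneg hB fun _ _ _ => sq_nonneg _
      _ ≤ ∑ q ∈ blk k, ∑ q' ∈ blk k, t4_rho M S s l α β (((q' : ℤ) - (q : ℤ)) * e) ^ 2 :=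
          Finset.sum_le_sum_of_subset_of_nonneg hB fun _ _ _ =>
            Finset.sum_nonneg fun _ _ => sq_nonneg _
  have h4 : ∑ q ∈ B, ‖cor M S y s l α β (fun x => (ψ q x : ℂ)) (q * e)‖ ^ 2 ≤
      (β - α) * Real.sqrt R :=
    h1.trans (mul_le_mul_of_nonneg_left (Real.sqrt_le_sqrt h2) (sub_nonneg.2 hαβ))
  have h5 : (∑ q ∈ B, ‖cor M S y s l α β (fun x => (ψ q x : ℂ)) (q * e)‖) ^ 2 ≤
      B.card * ∑ q ∈ B, ‖cor M S y s l α β (fun x => (ψ q x : ℂ)) (q * e)‖ ^ 2 :=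
    sq_sum_le_card_mul_sum_sq
  have h6 : (B.card : ℝ) ≤ pib k := by
    unfold pib
    exact_mod_cast Finset.card_le_card hB
  have h7 : 0 ≤ ∑ q ∈ B, ‖cor M S y s l α β (fun x => (ψ q x : ℂ)) (q * e)‖ ^ 2 :=
    Finset.sum_nonneg fun _ _ => sq_nonneg _
  rw [div_pow, Real.sqrt_div' _ (sq_nonneg _), Real.sqrt_sq hp.le]
  have h8 : (∑ q ∈ B, ‖cor M S y s l α β (fun x => (ψ q x : ℂ)) (q * e)‖) ^ 2 ≤
      pib k * ((β - α) * Real.sqrt R) :=
    h5.trans (mul_le_mul h6 h4 h7 hp.le)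
  rw [div_le_iff₀ (by positivity)]
  have h9 : (β - α) * (Real.sqrt R / pib k) * pib k ^ 2 = pib k * ((β - α) * Real.sqrt R) := by
    field_simp
  rw [h9]
  exact h8

/-- main term for one value `ψ`: `duality_blk` on the set of `q` with `ψ_q = ψ`, `gram_eq`
(the character `ψ ψ⁻¹ = 1` disappears), `E3_use` with `ρ n = ∫_J l l_{|n|}` -/
theorem main_tors (hD : DS u m M S y s l) {α β : ℝ} (hαβ : α ≤ β) {e : ℕ} (he : 1 ≤ e)
    (ψ : ℕ → PontryaginDual K) (hψ : (Set.range ψ).Finite) :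
    Tendsto (fun k : ℕ => (∑ q ∈ blk k,
      ‖cor M S y s l α β (fun x => (ψ q x : ℂ)) (q * e)‖) / pib k) atTop (𝓝 0) := by
  classical
  set F : Finset (PontryaginDual K) := hψ.toFinset with hF
  have hb : Tendsto (fun k : ℕ => (F.card : ℝ) * Real.sqrt ((β - α) *
      Real.sqrt ((∑ q ∈ blk k, ∑ q' ∈ blk k,
        t4_rho M S s l α β (((q' : ℤ) - (q : ℤ)) * e) ^ 2) / pib k ^ 2))) atTop (𝓝 0) := by
    have h1 := (Real.continuous_sqrt.tendsto 0).comp (t4_e3 hD α β he)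
    rw [Real.sqrt_zero] at h1
    have h2 := h1.const_mul (β - α)
    rw [mul_zero] at h2
    have h3 := (Real.continuous_sqrt.tendsto 0).comp h2
    rw [Real.sqrt_zero] at h3
    have h4 := h3.const_mul (F.card : ℝ)
    rw [mul_zero] at h4
    exact h4
  refine squeeze_zero (fun k => ?_) (fun k => ?_) hb
  · exact div_nonneg (Finset.sum_nonneg fun _ _ => norm_nonneg _) (by unfold pib; positivity)
  · have h1 : ∑ q ∈ blk k, ‖cor M S y s l α β (fun x => (ψ q x : ℂ)) (q * e)‖ =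
        ∑ ψ₀ ∈ F, ∑ q ∈ (blk k).filter (fun q => ψ q = ψ₀),
          ‖cor M S y s l α β (fun x => (ψ q x : ℂ)) (q * e)‖ := by
      refine (Finset.sum_fiberwise_of_maps_to (fun q _ => ?_) _).symm
      rw [hF, Set.Finite.mem_toFinset]
      exact Set.mem_range_self q
    rw [h1, Finset.sum_div, ← nsmul_eq_mul]
    refine Finset.sum_le_card_nsmul _ _ _ fun ψ₀ _ => ?_
    exact t4_val hD hαβ e ψ ψ₀ k _ (Finset.filter_subset _ _)
      (fun q hq => (Finset.mem_filter.1 hq).2)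

/- END t4 -/

end Pool.Agent.S7d
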