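import Pool.Agent.S7d.G3
import Pool.Agent.S7d.T2
import Pool.Agent.S7e.D3

set_option autoImplicit false

namespace Pool.Agent.S7d

open MeasureTheory Filter Topology
open scoped ENNReal ComplexConjugate
open Pool.Agent.Sar (blk pib)
open Pool.Agent.S7 (KD DS Kq rt BMf)

/- BEGIN z0 -/

theorem Spa.union {B B' : Set ℕ} (h : Spa B) (h' : Spa B') : Spa (B ∪ B') := by
  classical
  obtain ⟨C, hC⟩ := h
  obtain ⟨C', hC'⟩ := h'
  refine ⟨C + C', fun F hF => ?_⟩
  rw [← Finset.sum_filter_add_sum_filter_not F (fun k => k ∈ B)]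
  refine add_le_add (hC _ fun k hk => ?_) (hC' _ fun k hk => ?_)
  · rw [Finset.mem_filter] at hk
    exact ⟨(hF k hk.1).1, hk.2⟩
  · rw [Finset.mem_filter] at hk
    exact ⟨(hF k hk.1).1, (hF k hk.1).2.resolve_left hk.2⟩

theorem Spa.iUnion {k : ℕ} {B : Fin k → Set ℕ} (h : ∀ i, Spa (B i)) : Spa (⋃ i, B i) := by
  classical
  choose C hC using h
  refine ⟨∑ i, C i, fun F hF => ?_⟩
  have h1 : ∑ k ∈ F, (1 : ℝ) / k ≤ ∑ k ∈ F, ∑ i, if k ∈ B i then (1 : ℝ) / k else 0 := by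
    refine Finset.sum_le_sum fun n hn => ?_
    obtain ⟨i, hi⟩ := Set.mem_iUnion.1 (hF n hn).2
    have h2 : (if n ∈ B i then (1 : ℝ) / n else 0) ≤ ∑ i, if n ∈ B i then (1 : ℝ) / n else 0 := by
      refine Finset.single_le_sum (f := fun i => if n ∈ B i then (1 : ℝ) / n else 0)
        (fun i _ => ?_) (Finset.mem_univ i)
      show (0 : ℝ) ≤ if n ∈ B i then (1 : ℝ) / n else 0
      split_ifs
      · positivity
      · exact le_rfl
    rwa [if_pos hi] at h2
  refine h1.trans ?_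
  rw [Finset.sum_comm]
  refine Finset.sum_le_sum fun i _ => ?_
  rw [← Finset.sum_filter]
  refine hC i _ fun n hn => ?_
  rw [Finset.mem_filter] at hn
  exact ⟨(hF n hn.1).1, hn.2⟩

/-- infinitely many scales avoid a sparse set (`∑ 1/m` diverges) -/
theorem Spa.exists_notMem {B : Set ℕ} (h : Spa B) (m : ℕ) : ∃ k, m ≤ k ∧ k ∉ B := by
  by_contra hno
  push Not at hno
  obtain ⟨C, hC⟩ := h
  have h1 := Real.tendsto_sum_range_one_div_nat_succ_atTop
  have h2 := (h1.eventually (eventually_gt_atTop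
    (C + ∑ i ∈ Finset.range m, (1 : ℝ) / ((i : ℝ) + 1)))).and (eventually_ge_atTop m)
  obtain ⟨n, hn, hmn⟩ := h2.exists
  have h3 := hC (Finset.Ico (m + 1) (n + 1)) (fun k hk => by
    rw [Finset.mem_Ico] at hk
    exact ⟨by omega, hno k (by omega)⟩)
  rw [← Finset.sum_Ico_add' (fun k : ℕ => (1 : ℝ) / (k : ℝ)) m n 1,
    Finset.sum_Ico_eq_sub _ hmn] at h3
  push_cast at h3
  linarith

/- END z0 -/

/- BEGIN d3: proved by helper33 (S7e/D3.lean) -/

theorem decouple {Ω : Type*} [mΩ : MeasurableSpace Ω] (μ : Measure Ω) [IsProbabilityMeasure μ]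
    (S : Ω → Ω) (hS : MeasurePreserving S μ μ) (A : MeasurableSpace Ω) (hA : A ≤ mΩ)
    (hSA : Measurable[A, A] S) (l : Ω → ℝ) (hl : Measurable[mΩ] l)
    (hl1 : ∀ z, l z = 1 ∨ l z = -1)
    (q0 : ℕ) (r : (q : ℕ) → Ω → ZMod q)
    (hr : ∀ q, q.Prime → q0 ≤ q → ∀ a, MeasurableSet[mΩ] (r q ⁻¹' {a}))
    (hrS : ∀ q, q.Prime → q0 ≤ q → ∀ z, r q (S z) = r q z + 1)
    (hind : ∀ B : Finset ℕ, (∀ q ∈ B, q.Prime ∧ q0 ≤ q) → ∀ (a : (q : ℕ) → ZMod q) (A' : Set Ω),
      MeasurableSet[A] A' → μ.real (A' ∩ {z | ∀ q ∈ B, r q z = a q}) = μ.real A' / ∏ q ∈ B, (q : ℝ))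
    (ψ : ℕ → Ω → ℂ) (hψ : ∀ q, Measurable[A] (ψ q)) (hψ1 : ∀ q z, ‖ψ q z‖ = 1) (w : ℕ → ℂ)
    (hw : ∀ q, ‖w q‖ = 1) (hψS : ∀ q z, ψ q (S z) = w q * ψ q z) (e : ℕ) (he : 1 ≤ e) {ε : ℝ}
    (hε : 0 < ε) :
    ∃ Bad : Set ℕ, Spa Bad ∧ ∀ k, k ∉ Bad → q0 ≤ 2 ^ k →
      ∑ q ∈ blk k, ‖∫ z, ((if r q z = 0 then (q : ℂ) else 0) - 1) * ψ q z * (l z : ℂ) *
        (l (S^[q * e] z) : ℂ) ∂μ‖ ≤ ε * pib k :=
  @Pool.Agent.S7e.D3 Ω A mΩ μ _ hA S hS hSA l hl hl1 q0 r hr hrS
    (fun P a B hP hB => hind P hP a B hB) ψ w (fun q _ _ => hψ q) (fun q _ _ z => (hψ1 q z).le)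
    (fun q _ _ => hw q) (fun q _ _ => hψS q) e ε hε

/- END d3 -/

variable {K : Type*} [CommGroup K] [TopologicalSpace K] [IsTopologicalGroup K] [CompactSpace K]
  [T2Space K] [SecondCountableTopology K] [MeasurableSpace K] [BorelSpace K]
  {u : K} {m : Measure K} [IsProbabilityMeasure m] [m.IsHaarMeasure]
  {Z : Type*} [MeasurableSpace Z] {M : Measure Z} {S : Z ≃ᵐ Z} {y : Z → K} {s l : Z → ℝ}

/- BEGIN z1 -/

private theorem z1_const {α β : ℝ} (hαβ : α < β) :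
    ENNReal.ofReal (β - α) ≠ 0 ∧ ENNReal.ofReal (β - α) ≠ ∞ :=
  ⟨(ENNReal.ofReal_pos.2 (by linarith)).ne', ENNReal.ofReal_ne_top⟩

private theorem z1_map (hD : DS u m M S y s l) {α β : ℝ} (hαβ : α < β) :
    ((ENNReal.ofReal (β - α))⁻¹ • M.restrict (s ⁻¹' Set.Ioc α β)).map y = m := by
  rw [Measure.map_smul, map_y hD hαβ.le, smul_smul,
    ENNReal.inv_mul_cancel (z1_const hαβ).1 (z1_const hαβ).2, one_smul]

private theorem z1_prob (hD : DS u m M S y s l) {α β : ℝ} (hαβ : α < β) :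
    IsProbabilityMeasure ((ENNReal.ofReal (β - α))⁻¹ • M.restrict (s ⁻¹' Set.Ioc α β)) := by
  refine ⟨?_⟩
  have h1 := congrArg (fun μ : Measure K => μ Set.univ) (z1_map hD hαβ)
  rw [Measure.map_apply hD.ym MeasurableSet.univ, Set.preimage_univ] at h1
  rw [h1]
  exact measure_univ

omit [IsTopologicalGroup K] [CompactSpace K] [T2Space K] [SecondCountableTopology K] in
private theorem z1_chr (Λ : Subgroup (PontryaginDual K)) {ψ : PontryaginDual K} (hψ : ψ ∈ Λ) :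
    Measurable[AK Λ] (fun x : K => ((ψ x : Circle) : ℂ)) := by
  intro T hT
  have hc : Continuous (fun x : K => ((ψ x : Circle) : ℂ)) :=
    continuous_subtype_val.comp (map_continuous ψ)
  refine ⟨hc.measurable hT, fun h hh x => ?_⟩
  show ((ψ (h * x) : Circle) : ℂ) ∈ T ↔ ((ψ x : Circle) : ℂ) ∈ T
  rw [map_mul, hh ψ hψ, one_mul]

omit [CompactSpace K] [T2Space K] [SecondCountableTopology K] [IsProbabilityMeasure m]
  [m.IsHaarMeasure] in
private theorem z1_S (hD : DS u m M S y s l) (Λ : Subgroup (PontryaginDual K)) :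
    Measurable[(AK Λ).comap y, (AK Λ).comap y] (S : Z → Z) := by
  rintro _ ⟨B, hB, rfl⟩
  refine ⟨{x | u * x ∈ B}, ⟨?_, fun h hh x => ?_⟩, ?_⟩
  · exact (measurable_const_mul u) hB.1
  · show u * (h * x) ∈ B ↔ u * x ∈ B
    rw [mul_left_comm]
    exact hB.2 h hh (u * x)
  · ext z
    show u * y z ∈ B ↔ y (S z) ∈ B
    rw [hD.yS]

private theorem z1_ind (hK : KD K u) (hD : DS u m M S y s l) {α β : ℝ} (hαβ : α < β)
    (Λ : Subgroup (PontryaginDual K)) {q0 : ℕ}
    (hΛ : ∀ n, OKn q0 n → ∀ θ ∈ Λ, θ ^ n = 1 → θ = 1) (B : Finset ℕ)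
    (hB : ∀ q ∈ B, q.Prime ∧ q0 ≤ q) (a : (q : ℕ) → ZMod q) (A' : Set Z)
    (hA : MeasurableSet[(AK Λ).comap y] A') :
    ((ENNReal.ofReal (β - α))⁻¹ • M.restrict (s ⁻¹' Set.Ioc α β)).real
      (A' ∩ {z | ∀ q ∈ B, res u q (y z) = a q}) =
    ((ENNReal.ofReal (β - α))⁻¹ • M.restrict (s ⁻¹' Set.Ioc α β)).real A' /
      ∏ q ∈ B, (q : ℝ) := by
  obtain ⟨E, hE, rfl⟩ := hA
  have key : ∀ T : Set K, MeasurableSet T →
      ((ENNReal.ofReal (β - α))⁻¹ • M.restrict (s ⁻¹' Set.Ioc α β)).real (y ⁻¹' T) =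
        m.real T := by
    intro T hT
    have h1 := congrArg (fun μ : Measure K => μ.real T) (z1_map hD hαβ)
    rw [← h1, measureReal_def, measureReal_def, Measure.map_apply hD.ym hT]
  have hR : MeasurableSet {x : K | ∀ q ∈ B, res u q x = a q} := by
    have h2 : {x : K | ∀ q ∈ B, res u q x = a q} = ⋂ q ∈ B, res u q ⁻¹' {a q} := by
      ext x
      simp only [Set.mem_iInter, Set.mem_preimage, Set.mem_singleton_iff]
      exact Iff.rfl
    rw [h2]
    exact Finset.measurableSet_biInter B fun q hq => res_meas hK (hB q hq).1.one_lt.le (a q)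
  have h3 : y ⁻¹' E ∩ {z | ∀ q ∈ B, res u q (y z) = a q} =
      y ⁻¹' (E ∩ {x : K | ∀ q ∈ B, res u q x = a q}) := rfl
  rw [h3, key _ (hE.1.inter hR), key _ hE.1]
  exact res_indep_family hK Λ hΛ B hB a hE

/-- **D3 for the dilation system**: apply `decouple` to `μ = (β - α)⁻¹ M` restricted to `s ∈ J`,
`A = (AK Λ).comap y`, `Λ` = the group generated by the `ψ_q`, `r q z = res u q (y z)`;
independence is `res_indep_family` and `map_y` -/
theorem decouple_DS (hK : KD K u) (hD : DS u m M S y s l) {α β : ℝ} (hαβ : α < β) {q0 : ℕ}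
    {ψ : ℕ → PontryaginDual K} {χ : PontryaginDual K} (hc : Choice χ q0 ψ) {e : ℕ} (he : 1 ≤ e)
    {ε : ℝ} (hε : 0 < ε) :
    ∃ Bad : Set ℕ, Spa Bad ∧ ∀ k, k ∉ Bad → q0 ≤ 2 ^ k →
      ∑ q ∈ blk k, ‖∫ z in s ⁻¹' Set.Ioc α β, ((q : ℂ) * (if res u q (y z) = 0 then 1 else 0) - 1) *
        (ψ q (y z) : ℂ) * ((l z * l (S^[q * e] z) : ℝ) : ℂ) ∂M‖ ≤ ε * pib k := by
  have hba : 0 < β - α := by linarith
  let Λ : Subgroup (PontryaginDual K) := Subgroup.closure (Set.range ψ)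
  have hψΛ : ∀ q, ψ q ∈ Λ := fun q => Subgroup.subset_closure ⟨q, rfl⟩
  have := z1_prob hD hαβ
  obtain ⟨Bad, hBad, hmain⟩ := decouple
    ((ENNReal.ofReal (β - α))⁻¹ • M.restrict (s ⁻¹' Set.Ioc α β)) (S : Z → Z)
    ((mp_J hD α β).smul_measure _) ((AK Λ).comap y)
    (by
      rintro _ ⟨B, hB, rfl⟩
      exact hD.ym hB.1)
    (z1_S hD Λ) l hD.lm hD.l1 q0 (fun q z => res u q (y z))
    (fun q hq _ a => hD.ym (res_meas hK hq.one_lt.le a))
    (fun q hq _ z => by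
      show res u q (y (S z)) = res u q (y z) + 1
      rw [hD.yS, res_mul hK hq.one_lt.le, res_u hK hq.one_lt.le, add_comm])
    (fun B hB a A' hA' => z1_ind hK hD hαβ Λ hc.tf B hB a A' hA')
    (fun q z => ((ψ q (y z) : Circle) : ℂ))
    (fun q => (z1_chr Λ (hψΛ q)).comp (comap_measurable y))
    (fun q z => Circle.norm_coe _) (fun q => ((ψ q u : Circle) : ℂ))
    (fun q => Circle.norm_coe _)
    (fun q z => by
      show ((ψ q (y (S z)) : Circle) : ℂ) = ((ψ q u : Circle) : ℂ) * ((ψ q (y z) : Circle) : ℂ)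
      rw [hD.yS, map_mul, Circle.coe_mul])
    e he (ε := ε / (β - α)) (div_pos hε hba)
  refine ⟨Bad, hBad, fun k hk hq => ?_⟩
  have h1 := hmain k hk hq
  have h2 : ∀ q ∈ blk k, ‖∫ z in s ⁻¹' Set.Ioc α β,
      ((q : ℂ) * (if res u q (y z) = 0 then 1 else 0) - 1) *
        (ψ q (y z) : ℂ) * ((l z * l (S^[q * e] z) : ℝ) : ℂ) ∂M‖ = (β - α) *
      ‖∫ z, ((if res u q (y z) = 0 then (q : ℂ) else 0) - 1) * ((ψ q (y z) : Circle) : ℂ) *
        (l z : ℂ) * (l (S^[q * e] z) : ℂ)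
        ∂((ENNReal.ofReal (β - α))⁻¹ • M.restrict (s ⁻¹' Set.Ioc α β))‖ := by
    intro q _
    rw [integral_smul_measure, norm_smul, ENNReal.toReal_inv, ENNReal.toReal_ofReal hba.le,
      Real.norm_of_nonneg (inv_nonneg.2 hba.le), ← mul_assoc, mul_inv_cancel₀ hba.ne', one_mul]
    congr 1
    refine integral_congr_ae (Eventually.of_forall fun z => ?_)
    show ((q : ℂ) * (if res u q (y z) = 0 then 1 else 0) - 1) *
        ((ψ q (y z) : Circle) : ℂ) * ((l z * l (S^[q * e] z) : ℝ) : ℂ) =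
      ((if res u q (y z) = 0 then (q : ℂ) else 0) - 1) * ((ψ q (y z) : Circle) : ℂ) *
        (l z : ℂ) * (l (S^[q * e] z) : ℂ)
    push_cast
    split_ifs <;> ring
  rw [Finset.sum_congr rfl h2, ← Finset.mul_sum]
  calc (β - α) * _ ≤ (β - α) * (ε / (β - α) * pib k) := mul_le_mul_of_nonneg_left h1 hba.le
    _ = ε * pib k := by
      field_simp

/- END z1 -/

/- BEGIN z2 -/

theorem z2_spa_fin {B : Set ℕ} (h : B.Finite) : Spa B := by
  refine ⟨∑ m ∈ h.toFinset, (1 : ℝ) / m, fun F hF => ?_⟩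
  refine Finset.sum_le_sum_of_subset_of_nonneg ?_ (fun _ _ _ => by positivity)
  intro m hm
  rw [Set.Finite.mem_toFinset]
  exact (hF m hm).2

theorem z2_main (hD : DS u m M S y s l) {α β : ℝ} (hαβ : α < β) {q0 : ℕ}
    {ψ : ℕ → PontryaginDual K} {χ : PontryaginDual K} (hc : Choice χ q0 ψ) {e : ℕ} (he : 1 ≤ e) :
    Tendsto (fun k : ℕ => (∑ q ∈ blk k,
      ‖cor M S y s l α β (fun x => (ψ q x : ℂ)) (q * e)‖) / pib k) atTop (𝓝 0) := by
  rcases hc.dich with h | h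
  · exact main_tors hD hαβ.le he ψ h
  · exact main_nontors hD hαβ.le e q0 ψ h

theorem z2_int (hD : DS u m M S y s l) (α β : ℝ) (ψ : PontryaginDual K) (n : ℕ) {f : K → ℂ}
    (hf : Measurable f) {C : ℝ} (hC : ∀ x, ‖f x‖ ≤ C) :
    Integrable (fun z => f (y z) * (ψ (y z) : ℂ) * ((l z * l (S^[n] z) : ℝ) : ℂ))
      (M.restrict (s ⁻¹' Set.Ioc α β)) := by
  have := fin_J hD α β
  have hψ : Measurable (fun x : K => ((ψ x : Circle) : ℂ)) :=
    (continuous_induced_dom.comp (map_continuous ψ)).measurable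
  have hS : Measurable (S^[n] : Z → Z) := S.measurable.iterate n
  have hm : Measurable (fun z => f (y z) * (ψ (y z) : ℂ) * ((l z * l (S^[n] z) : ℝ) : ℂ)) :=
    ((hf.comp hD.ym).mul (hψ.comp hD.ym)).mul
      (Complex.measurable_ofReal.comp (hD.lm.mul (hD.lm.comp hS)))
  refine (integrable_const C).mono' hm.aestronglyMeasurable (ae_of_all _ fun z => ?_)
  rw [norm_mul, norm_mul, Circle.norm_coe, mul_one]
  have h1 : ‖((l z * l (S^[n] z) : ℝ) : ℂ)‖ = 1 := by
    rcases hD.l1 z with h | h <;> rcases hD.l1 (S^[n] z) with h' | h' <;> simp [h, h']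
  rw [h1, mul_one]
  exact hC _

theorem z2_tri (hK : KD K u) (hD : DS u m M S y s l) {α β : ℝ} {q : ℕ} (hq : q.Prime)
    {ψ χ : PontryaginDual K} (hψ : ψ ^ q = χ) (e : ℕ) :
    ‖cor M S y s l (α - Real.log q) (β - Real.log q) (fun x => (χ x : ℂ)) e‖ ≤
      ‖∫ z in s ⁻¹' Set.Ioc α β, ((q : ℂ) * (if res u q (y z) = 0 then 1 else 0) - 1) *
        (ψ (y z) : ℂ) * ((l z * l (S^[q * e] z) : ℝ) : ℂ) ∂M‖ +
      ‖cor M S y s l α β (fun x => (ψ x : ℂ)) (q * e)‖ := by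
  rw [dil_id hK hD hq hψ e α β]
  have hr : Measurable (fun x : K => (q : ℂ) * (if res u q x = 0 then (1 : ℂ) else 0) - 1) := by
    refine Measurable.sub_const (Measurable.const_mul ?_ _) _
    exact Measurable.ite (res_meas hK hq.pos 0) measurable_const measurable_const
  have hb : ∀ x : K, ‖(q : ℂ) * (if res u q x = 0 then (1 : ℂ) else 0) - 1‖ ≤ q + 1 := by
    intro x
    refine (norm_sub_le _ _).trans ?_
    rw [norm_one, norm_mul]
    have h1 : ‖(if res u q x = 0 then (1 : ℂ) else 0)‖ ≤ 1 := by split_ifs <;> simp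
    have h2 : ‖(q : ℂ)‖ = q := by simp
    rw [h2]
    nlinarith [norm_nonneg (if res u q x = 0 then (1 : ℂ) else 0), (Nat.cast_nonneg q : (0:ℝ) ≤ q)]
  have i1 := z2_int hD α β ψ (q * e) hr hb
  have i2 := z2_int hD α β ψ (q * e) (f := fun _ => 1) measurable_const (C := 1) (by simp)
  have h := integral_add i1 i2
  have h2 : ∫ z in s ⁻¹' Set.Ioc α β, ((q : ℂ) * (if res u q (y z) = 0 then 1 else 0)) *
        (ψ (y z) : ℂ) * ((l z * l (S^[q * e] z) : ℝ) : ℂ) ∂M =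
      (∫ z in s ⁻¹' Set.Ioc α β, ((q : ℂ) * (if res u q (y z) = 0 then 1 else 0) - 1) *
        (ψ (y z) : ℂ) * ((l z * l (S^[q * e] z) : ℝ) : ℂ) ∂M) +
      cor M S y s l α β (fun x => (ψ x : ℂ)) (q * e) := by
    have h3 : cor M S y s l α β (fun x => (ψ x : ℂ)) (q * e) =
        ∫ z in s ⁻¹' Set.Ioc α β, 1 * (ψ (y z) : ℂ) * ((l z * l (S^[q * e] z) : ℝ) : ℂ) ∂M := by
      unfold cor
      refine integral_congr_ae (ae_of_all _ fun z => ?_)
      simp only [one_mul]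
    rw [h3, ← h]
    refine integral_congr_ae (ae_of_all _ fun z => ?_)
    simp only
    ring
  rw [h2]
  exact norm_add_le _ _

/-- one character: for all `k` outside a sparse set the sum over `q ∈ blk k` of the correlations at
the scales `J - log q` is at most `ε pib k` (`dil_id`, `decouple_DS`, `main_tors`/`main_nontors`) -/
theorem one_chr (hK : KD K u) (hD : DS u m M S y s l) {α β : ℝ} (hαβ : α < β)
    (χ : PontryaginDual K) {e : ℕ} (he : 1 ≤ e) {ε : ℝ} (hε : 0 < ε) :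
    ∃ Bad : Set ℕ, Spa Bad ∧ ∀ k, k ∉ Bad →
      ∑ q ∈ blk k, ‖cor M S y s l (α - Real.log q) (β - Real.log q) (fun x => (χ x : ℂ)) e‖ ≤
        ε * pib k := by
  obtain ⟨q0, ψ, hc⟩ := choice (K := K) hK χ
  obtain ⟨B, hB, hB2⟩ := decouple_DS hK hD hαβ hc he (half_pos hε)
  have hm := z2_main hD hαβ hc he
  have hev : ∀ᶠ k : ℕ in atTop, (∑ q ∈ blk k,
      ‖cor M S y s l α β (fun x => (ψ q x : ℂ)) (q * e)‖) / pib k < ε / 2 :=
    hm.eventually (gt_mem_nhds (half_pos hε))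
  obtain ⟨k1, hk1⟩ := eventually_atTop.1 hev
  refine ⟨B ∪ {k | k < max k1 q0}, hB.union (z2_spa_fin (Set.finite_lt_nat _)), fun k hk => ?_⟩
  rw [Set.mem_union, not_or, Set.mem_ofPred_eq, not_lt] at hk
  have hkq : q0 ≤ 2 ^ k := by
    have h1 : q0 ≤ k := (le_max_right _ _).trans hk.2
    exact h1.trans (Nat.lt_two_pow_self).le
  have hkk : k1 ≤ k := (le_max_left _ _).trans hk.2
  have hd := hB2 k hk.1 hkq
  have hmm : ∑ q ∈ blk k, ‖cor M S y s l α β (fun x => (ψ q x : ℂ)) (q * e)‖ ≤ ε / 2 * pib k := by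
    rcases (blk k).eq_empty_or_nonempty with h0 | h0
    · simp [h0, pib]
    · have hp : 0 < pib k := by
        unfold pib
        exact_mod_cast h0.card_pos
      exact ((div_lt_iff₀ hp).1 (hk1 k hkk)).le
  have hs : ∑ q ∈ blk k, ‖cor M S y s l (α - Real.log q) (β - Real.log q)
        (fun x => (χ x : ℂ)) e‖ ≤
      ∑ q ∈ blk k, (‖∫ z in s ⁻¹' Set.Ioc α β,
        ((q : ℂ) * (if res u q (y z) = 0 then 1 else 0) - 1) *
        (ψ q (y z) : ℂ) * ((l z * l (S^[q * e] z) : ℝ) : ℂ) ∂M‖ +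
        ‖cor M S y s l α β (fun x => (ψ q x : ℂ)) (q * e)‖) := by
    refine Finset.sum_le_sum fun q hq => ?_
    have hq' := Finset.mem_filter.1 hq
    have hqp : q.Prime := hq'.2
    have hq2 : 2 ^ k ≤ q := (Finset.mem_Ico.1 hq'.1).1
    exact z2_tri hK hD hqp (hc.pow q hqp (hkq.trans hq2)) e
  rw [Finset.sum_add_distrib] at hs
  linarith

/-- finitely many characters -/
theorem thmD_chr (hK : KD K u) (hD : DS u m M S y s l) {α β : ℝ} (hαβ : α < β) (k : ℕ)
    (e : Fin k → ℕ) (he : ∀ i, 1 ≤ e i) (χ : Fin k → PontryaginDual K) {δ : ℝ} (hδ : 0 < δ) :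
    ∃ q : ℕ, q.Prime ∧ ∀ i, ‖cor M S y s l (α - Real.log q) (β - Real.log q)
      (fun x => (χ i x : ℂ)) (e i)‖ < δ := by
  have hk : (0 : ℝ) < k + 1 := by positivity
  have hε : 0 < δ / (k + 1) := by positivity
  choose B hB hB2 using fun i => one_chr hK hD hαβ (χ i) (he i) hε
  have hU : Spa (⋃ i, B i) := Spa.iUnion hB
  obtain ⟨c, hc, hc2⟩ := pib_low
  obtain ⟨N, hN⟩ := eventually_atTop.1 hc2
  obtain ⟨n, hn, hnB⟩ := hU.exists_notMem (max N 1)
  have hn1 : 1 ≤ n := (le_max_right _ _).trans hn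
  have hpp : 0 < pib n := by
    refine lt_of_lt_of_le ?_ (hN n ((le_max_left _ _).trans hn))
    have : (0 : ℝ) < n := by exact_mod_cast hn1
    positivity
  have hsum : ∑ q ∈ blk n, ∑ i, ‖cor M S y s l (α - Real.log q) (β - Real.log q)
      (fun x => (χ i x : ℂ)) (e i)‖ ≤ (k : ℝ) * (δ / (k + 1) * pib n) := by
    rw [Finset.sum_comm]
    have h1 : ∀ i ∈ (Finset.univ : Finset (Fin k)),
        ∑ q ∈ blk n, ‖cor M S y s l (α - Real.log q) (β - Real.log q)
          (fun x => (χ i x : ℂ)) (e i)‖ ≤ δ / (k + 1) * pib n := fun i _ =>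
      hB2 i n fun h => hnB (Set.mem_iUnion.2 ⟨i, h⟩)
    refine (Finset.sum_le_card_nsmul _ _ _ h1).trans (le_of_eq ?_)
    rw [Finset.card_univ, Fintype.card_fin, nsmul_eq_mul]
  by_contra hcon
  push Not at hcon
  have hlow : ∑ q ∈ blk n, δ ≤ ∑ q ∈ blk n, ∑ i,
      ‖cor M S y s l (α - Real.log q) (β - Real.log q) (fun x => (χ i x : ℂ)) (e i)‖ := by
    refine Finset.sum_le_sum fun q hq => ?_
    obtain ⟨i, hi⟩ := hcon q (Finset.mem_filter.1 hq).2
    exact hi.trans (Finset.single_le_sum (f := fun i => ‖cor M S y s l (α - Real.log q)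
      (β - Real.log q) (fun x => (χ i x : ℂ)) (e i)‖) (fun _ _ => norm_nonneg _)
      (Finset.mem_univ i))
  rw [Finset.sum_const, nsmul_eq_mul] at hlow
  have hlt : (k : ℝ) * (δ / (k + 1) * pib n) < pib n * δ := by
    have h1 : (k : ℝ) * (δ / (k + 1)) < δ := by
      rw [mul_div_assoc', div_lt_iff₀ hk]
      nlinarith
    calc (k : ℝ) * (δ / (k + 1) * pib n) = (k : ℝ) * (δ / (k + 1)) * pib n := by ring
      _ < δ * pib n := by exact mul_lt_mul_of_pos_right h1 hpp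
      _ = pib n * δ := mul_comm _ _
  have : pib n * δ ≤ (k : ℝ) * (δ / (k + 1) * pib n) := hlow.trans hsum
  linarith

/- END z2 -/

/- BEGIN z3 -/

/-- a character as a continuous complex function -/
noncomputable def z3_ch (χ : PontryaginDual K) : C(K, ℂ) :=
  ⟨fun x => (χ x : ℂ), continuous_subtype_val.comp (map_continuous χ)⟩

/-- the characters form a monoid -/
noncomputable def z3_S (K : Type*) [CommGroup K] [TopologicalSpace K] [IsTopologicalGroup K] :
    Submonoid C(K, ℂ) where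
  carrier := Set.range z3_ch
  mul_mem' := by
    rintro _ _ ⟨χ, rfl⟩ ⟨χ', rfl⟩
    exact ⟨χ * χ', by ext x; rfl⟩
  one_mem' := ⟨1, by ext x; rfl⟩

/-- the star algebra generated by the characters -/
noncomputable def z3_A (K : Type*) [CommGroup K] [TopologicalSpace K] [IsTopologicalGroup K] :
    StarSubalgebra ℂ C(K, ℂ) where
  toSubalgebra := Algebra.adjoin ℂ (z3_S K : Set C(K, ℂ))
  star_mem' := by
    intro a ha
    change a ∈ Algebra.adjoin ℂ (z3_S K : Set C(K, ℂ)) at ha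
    change star a ∈ Algebra.adjoin ℂ (z3_S K : Set C(K, ℂ))
    induction ha using Algebra.adjoin_induction with
    | mem x hx =>
      obtain ⟨χ, rfl⟩ := hx
      apply Algebra.subset_adjoin
      refine ⟨χ⁻¹, ?_⟩
      ext x
      exact Circle.coe_inv_eq_conj (χ x)
    | algebraMap r =>
      have h1 : star (algebraMap ℂ C(K, ℂ) r) = algebraMap ℂ C(K, ℂ) (star r) := by
        ext x
        rfl
      rw [h1]
      exact Subalgebra.algebraMap_mem _ _
    | add x y _ _ h1 h2 =>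
      rw [star_add]
      exact Subalgebra.add_mem _ h1 h2
    | mul x y _ _ h1 h2 =>
      rw [star_mul]
      exact Subalgebra.mul_mem _ h2 h1

theorem z3_sw (hK : KD K u) (f : C(K, ℂ)) {ε : ℝ} (hε : 0 < ε) :
    ∃ (n : ℕ) (χ : Fin n → PontryaginDual K) (c : Fin n → ℂ),
      ∀ x, ‖f x - ∑ i, c i * (χ i x : ℂ)‖ ≤ ε := by
  classical
  have hsep : (z3_A K).SeparatesPoints := by
    intro x x' hxx
    have h1 : x * x'⁻¹ ≠ 1 := fun h => hxx (mul_inv_eq_one.mp h)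
    have h2 : ∃ χ : PontryaginDual K, χ (x * x'⁻¹) ≠ 1 := by
      by_contra hcon
      push Not at hcon
      exact h1 (hK.sep _ hcon)
    obtain ⟨χ, hχ⟩ := h2
    refine ⟨fun z => (χ z : ℂ), ⟨z3_ch χ, ?_, rfl⟩, ?_⟩
    · exact Algebra.subset_adjoin ⟨χ, rfl⟩
    · intro h
      apply hχ
      rw [map_mul, map_inv, mul_inv_eq_one]
      exact Circle.ext h
  have htop := ContinuousMap.starSubalgebra_topologicalClosure_eq_top_of_separatesPoints
    (z3_A K) hsep
  have hf : f ∈ (z3_A K).topologicalClosure := by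
    rw [htop]
    trivial
  have hf2 : f ∈ closure ((z3_A K : StarSubalgebra ℂ C(K, ℂ)) : Set C(K, ℂ)) := hf
  rw [Metric.mem_closure_iff] at hf2
  obtain ⟨g, hg, hfg⟩ := hf2 ε hε
  have hg2 : g ∈ Subalgebra.toSubmodule (Algebra.adjoin ℂ (z3_S K : Set C(K, ℂ))) := hg
  rw [Algebra.adjoin_eq_span, Submonoid.closure_eq] at hg2
  have hg3 : g ∈ Submodule.span ℂ (Set.range (z3_ch : PontryaginDual K → C(K, ℂ))) := hg2
  rw [Finsupp.mem_span_range_iff_exists_finsupp] at hg3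
  obtain ⟨c, hc⟩ := hg3
  refine ⟨c.support.card, fun i => (c.support.equivFin.symm i : PontryaginDual K),
    fun i => c (c.support.equivFin.symm i : PontryaginDual K), fun x => ?_⟩
  have h3 : ∑ i : Fin c.support.card, c (c.support.equivFin.symm i : PontryaginDual K) *
      (((c.support.equivFin.symm i : PontryaginDual K) x : Circle) : ℂ) = g x := by
    rw [← hc, Finsupp.sum]
    have h4 : (∑ a ∈ c.support, c a • z3_ch a : C(K, ℂ)) x
        = ∑ a ∈ c.support, c a * ((a x : Circle) : ℂ) := by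
      rw [ContinuousMap.coe_sum, Finset.sum_apply]
      apply Finset.sum_congr rfl
      intro a _
      rfl
    rw [h4, ← Finset.sum_coe_sort c.support (fun a => c a * ((a x : Circle) : ℂ))]
    exact Equiv.sum_comp c.support.equivFin.symm
      (fun a : c.support => c a * (((a : PontryaginDual K) x : Circle) : ℂ))
  rw [h3]
  have h5 := ContinuousMap.norm_coe_le_norm (f - g) x
  rw [← dist_eq_norm] at h5
  exact le_trans h5 hfg.le

theorem z3_ip {f : K → ℂ} (hf : BMf f) : Integrable f m := by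
  obtain ⟨C, hC⟩ := hf.bdd
  exact Integrable.of_bound hf.meas.aestronglyMeasurable C (Filter.Eventually.of_forall hC)

/-- trigonometric polynomials are dense in `L¹(m)` (Stone - Weierstrass, `KD.sep`) -/
theorem trig_approx (hK : KD K u) {φ : K → ℂ} (hφ : BMf φ) {ε : ℝ} (hε : 0 < ε) :
    ∃ (n : ℕ) (χ : Fin n → PontryaginDual K) (c : Fin n → ℂ),
      ∫ x, ‖φ x - ∑ i, c i * (χ i x : ℂ)‖ ∂m ≤ ε := by
  have hφi : Integrable φ m := z3_ip hφ
  obtain ⟨g, _, hg2, hg3, hg4⟩ := hφi.exists_hasCompactSupport_integral_sub_le (half_pos hε)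
  obtain ⟨n, χ, c, h⟩ := z3_sw hK ⟨g, hg3⟩ (half_pos hε)
  refine ⟨n, χ, c, ?_⟩
  have hcont : Continuous fun x => ∑ i, c i * (χ i x : ℂ) :=
    continuous_finsetSum _ fun i _ => continuous_const.mul (z3_ch (χ i)).continuous
  have hsi : Integrable (fun x => ∑ i, c i * (χ i x : ℂ)) m :=
    hcont.integrable_of_hasCompactSupport (HasCompactSupport.of_compactSpace _)
  calc ∫ x, ‖φ x - ∑ i, c i * (χ i x : ℂ)‖ ∂m
      ≤ ∫ x, (‖φ x - g x‖ + ‖g x - ∑ i, c i * (χ i x : ℂ)‖) ∂m := by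
        apply integral_mono (hφi.sub hsi).norm ((hφi.sub hg4).norm.add (hg4.sub hsi).norm)
        intro x
        exact norm_sub_le_norm_sub_add_norm_sub _ _ _
    _ = ∫ x, ‖φ x - g x‖ ∂m + ∫ x, ‖g x - ∑ i, c i * (χ i x : ℂ)‖ ∂m :=
        integral_add (hφi.sub hg4).norm (hg4.sub hsi).norm
    _ ≤ ε / 2 + ε / 2 := by
        apply add_le_add hg2
        have h6 : ∫ x, ‖g x - ∑ i, c i * (χ i x : ℂ)‖ ∂m ≤ ∫ _x, ε / 2 ∂m :=
          integral_mono (hg4.sub hsi).norm (integrable_const _) fun x => h x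
        rw [integral_const, probReal_univ, one_smul] at h6
        exact h6
    _ = ε := by ring

/-- **THEOREM D** (the contract statement of `S7.Iface`): `thmD_chr` for the finitely many pairs
`(e i, χ i j)`, `norm_cor_le` for the remainders -/
theorem thmD' (hK : KD K u) (hD : DS u m M S y s l) {α β : ℝ} (hαβ : α < β) (k : ℕ)
    (e : Fin k → ℕ) (he : ∀ i, 1 ≤ e i) (φ : Fin k → K → ℂ) (hφ : ∀ i, BMf (φ i)) {δ : ℝ}
    (hδ : 0 < δ) :
    ∃ q : ℕ, q.Prime ∧ ∀ i,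
      ‖∫ z in s ⁻¹' Set.Ioc (α - Real.log q) (β - Real.log q),
        (l z : ℂ) * (l (S^[e i] z) : ℂ) * φ i (y z) ∂M‖ < δ := by
  have hd : 0 < β - α := by linarith
  have hε : 0 < δ / (2 * (β - α)) := by positivity
  choose n χ c h using fun i => trig_approx (m := m) hK (hφ i) hε
  set C : ℝ := ∑ i, ∑ j, ‖c i j‖ with hC
  have hC0 : 0 ≤ C := Finset.sum_nonneg fun i _ => Finset.sum_nonneg fun j _ => norm_nonneg _
  have hδ' : 0 < δ / (2 * (C + 1)) := by positivity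
  let E := (finSigmaFinEquiv (m := k) (n := n))
  obtain ⟨q, hq, hqq⟩ := thmD_chr hK hD hαβ (∑ i, n i) (fun a => e (E.symm a).1)
    (fun a => he _) (fun a => χ (E.symm a).1 (E.symm a).2) hδ'
  have hq2 : ∀ i (j : Fin (n i)), ‖cor M S y s l (α - Real.log q) (β - Real.log q)
      (fun x => (χ i j x : ℂ)) (e i)‖ < δ / (2 * (C + 1)) := by
    intro i j
    have key : ∀ p : (Σ i : Fin k, Fin (n i)), ‖cor M S y s l (α - Real.log q) (β - Real.log q)
        (fun x => (χ p.1 p.2 x : ℂ)) (e p.1)‖ < δ / (2 * (C + 1)) := by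
      intro p
      obtain ⟨a, rfl⟩ := E.symm.surjective p
      exact hqq a
    exact key ⟨i, j⟩
  refine ⟨q, hq, fun i => ?_⟩
  set α' := α - Real.log q with hα'
  set β' := β - Real.log q with hβ'
  have hd' : β' - α' = β - α := by rw [hα', hβ']; ring
  have hαβ' : α' ≤ β' := by linarith
  have hfin := fin_J hD α' β'
  set μ := M.restrict (s ⁻¹' Set.Ioc α' β') with hμ
  have hchm : ∀ θ : PontryaginDual K, Measurable fun x : K => (θ x : ℂ) :=
    fun θ => (z3_ch θ).continuous.measurable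
  set ρ : K → ℂ := fun x => φ i x - ∑ j, c i j * (χ i j x : ℂ) with hρ
  have hρm : Measurable ρ :=
    (hφ i).meas.sub (Finset.measurable_sum _ fun j _ => (hchm _).const_mul _)
  obtain ⟨B, hB⟩ := (hφ i).bdd
  have hρB : BMf ρ := by
    refine ⟨hρm, B + ∑ j, ‖c i j‖, fun x => ?_⟩
    refine le_trans (norm_sub_le _ _) (add_le_add (hB x) (le_trans (norm_sum_le _ _) ?_))
    apply Finset.sum_le_sum
    intro j _
    rw [norm_mul, Circle.norm_coe, mul_one]
  have hl1 : ∀ z, ‖(l z : ℂ)‖ = 1 := by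
    intro z
    rcases hD.l1 z with h | h <;> rw [h] <;> simp
  set L : Z → ℂ := fun z => ((l z * l (S^[e i] z) : ℝ) : ℂ) with hL
  have hLm : Measurable L :=
    Complex.measurable_ofReal.comp (hD.lm.mul (hD.lm.comp (S.measurable.iterate (e i))))
  have hL1 : ∀ z, ‖L z‖ = 1 := by
    intro z
    simp only [hL]
    push_cast
    rw [norm_mul, hl1, hl1, mul_one]
  have hint : ∀ f : K → ℂ, BMf f → Integrable (fun z => f (y z) * L z) μ := by
    intro f hf
    obtain ⟨B', hB'⟩ := hf.bdd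
    refine Integrable.of_bound ((hf.meas.comp hD.ym).mul hLm).aestronglyMeasurable B'
      (Filter.Eventually.of_forall fun z => ?_)
    rw [norm_mul, hL1, mul_one]
    exact hB' _
  have hchB : ∀ θ : PontryaginDual K, BMf fun x : K => (θ x : ℂ) :=
    fun θ => ⟨hchm θ, 1, fun x => (Circle.norm_coe _).le⟩
  have hsplit : ∫ z, (l z : ℂ) * (l (S^[e i] z) : ℂ) * φ i (y z) ∂μ =
      ∑ j, c i j * cor M S y s l α' β' (fun x => (χ i j x : ℂ)) (e i) +
        cor M S y s l α' β' ρ (e i) := by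
    have h1 : ∀ z, (l z : ℂ) * (l (S^[e i] z) : ℂ) * φ i (y z) =
        ∑ j, c i j * ((χ i j (y z) : ℂ) * L z) + ρ (y z) * L z := by
      intro z
      simp only [hρ, hL]
      push_cast
      have h2 : ∑ j, c i j * ((χ i j (y z) : ℂ) * ((l z : ℂ) * (l (S^[e i] z) : ℂ))) =
          (∑ j, c i j * (χ i j (y z) : ℂ)) * ((l z : ℂ) * (l (S^[e i] z) : ℂ)) := by
        rw [Finset.sum_mul]
        apply Finset.sum_congr rfl
        intro j _
        ring
      rw [h2]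
      ring
    simp only [h1]
    rw [integral_add (integrable_finsetSum _ fun j _ => (hint _ (hchB _)).const_mul _) (hint ρ hρB),
      integral_finsetSum _ fun j _ => (hint _ (hchB _)).const_mul _]
    simp only [integral_const_mul]
    rfl
  rw [hsplit]
  have h7 : ‖cor M S y s l α' β' ρ (e i)‖ ≤ δ / 2 := by
    refine le_trans (norm_cor_le hD hαβ' hρB (e i)) ?_
    rw [hd']
    calc (β - α) * ∫ x, ‖ρ x‖ ∂m ≤ (β - α) * (δ / (2 * (β - α))) :=
          mul_le_mul_of_nonneg_left (h i) hd.le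
      _ = δ / 2 := by field_simp
  have h8 : ‖∑ j, c i j * cor M S y s l α' β' (fun x => (χ i j x : ℂ)) (e i)‖ < δ / 2 := by
    have h9 : ‖∑ j, c i j * cor M S y s l α' β' (fun x => (χ i j x : ℂ)) (e i)‖ ≤
        (∑ j, ‖c i j‖) * (δ / (2 * (C + 1))) := by
      refine le_trans (norm_sum_le _ _) ?_
      rw [Finset.sum_mul]
      apply Finset.sum_le_sum
      intro j _
      rw [norm_mul]
      exact mul_le_mul_of_nonneg_left (hq2 i j).le (norm_nonneg _)
    have h10 : (∑ j, ‖c i j‖) ≤ C :=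
      Finset.single_le_sum (f := fun i => ∑ j, ‖c i j‖)
        (fun i _ => Finset.sum_nonneg fun j _ => norm_nonneg _) (Finset.mem_univ i)
    refine lt_of_le_of_lt h9 ?_
    calc (∑ j, ‖c i j‖) * (δ / (2 * (C + 1))) ≤ C * (δ / (2 * (C + 1))) :=
          mul_le_mul_of_nonneg_right h10 hδ'.le
      _ < (C + 1) * (δ / (2 * (C + 1))) := by
          apply mul_lt_mul_of_pos_right _ hδ'
          linarith
      _ = δ / 2 := by field_simp
  calc ‖∑ j, c i j * cor M S y s l α' β' (fun x => (χ i j x : ℂ)) (e i) +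
        cor M S y s l α' β' ρ (e i)‖
      ≤ ‖∑ j, c i j * cor M S y s l α' β' (fun x => (χ i j x : ℂ)) (e i)‖ +
        ‖cor M S y s l α' β' ρ (e i)‖ := norm_add_le _ _
    _ < δ / 2 + δ / 2 := add_lt_add_of_lt_of_le h8 h7
    _ = δ := by ring

/- END z3 -/

end Pool.Agent.S7d
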